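import Pool.Agent.H34.MC.Game

/-!
Counting the word families on which a labelled path exists.
-/

namespace Pool.H34.MC

open Function Finset

variable {n m : ℕ}

/-- The labellings allowed after the free player `i` has moved to the chair `g`, when the players
sit on the chairs `c` with labels `lab`. -/
noncomputable def opts (c : Fin n → Fin m) (lab : Fin n → Lab) (i : Fin n) (g : Fin m) :
    Finset (Fin n → Lab) :=
  open Classical in
  if h : ∃ w, lab w ≠ Lab.A ∧ c w = g then
    if lab h.choose = Lab.R then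
      {update lab h.choose Lab.A, update lab h.choose Lab.F,
        update (update lab h.choose Lab.A) i Lab.F}
    else if lab h.choose = Lab.F then {update lab h.choose Lab.A, lab}
    else {lab}
  else {update lab i Lab.R}

/-- There is a labelled path of length `T`. -/
def Path (χ : Fin n → ℕ → Fin m) : ℕ → (Fin n → ℕ) → (Fin n → Fin m) → (Fin n → Lab) → Prop
  | 0, _, _, _ => True
  | T + 1, κ, c, lab => ∃ h : ∃ i, lab i = Lab.A,
      ∃ lab' ∈ opts c lab h.choose (χ h.choose (κ h.choose + 1)),
        Path χ T (update κ h.choose (κ h.choose + 1))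
          (update c h.choose (χ h.choose (κ h.choose + 1))) lab'

theorem exists_opt {χ : Fin n → ℕ → Fin m} {κ : Fin n → ℕ} {c : Fin n → Fin m}
    {lab : Fin n → Lab} (hg : Good χ κ lab) (hc : ∀ a, c a = χ a (κ a)) {i : Fin n}
    (hi : lab i = Lab.A) :
    ∃ lab' ∈ opts c lab i (χ i (κ i + 1)), Good χ (update κ i (κ i + 1)) lab' ∧
      lab' i ≠ Lab.P := by
  by_cases h : ∃ w, lab w ≠ Lab.A ∧ c w = χ i (κ i + 1)
  · have hw := h.choose_spec
    set w := h.choose with hwdef
    have hch : χ w (κ w) = χ i (κ i + 1) := by rw [← hc]; exact hw.2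
    have hiw : i ≠ w := by
      intro h'; exact hw.1 (h' ▸ hi)
    have hnP : ∀ x, update lab w x i ≠ Lab.P := by
      intro x; rw [update_of_ne hiw, hi]; decide
    by_cases hR : lab w = Lab.R
    · have hop : opts c lab i (χ i (κ i + 1)) = {update lab w Lab.A, update lab w Lab.F,
          update (update lab w Lab.A) i Lab.F} := by
        unfold opts; rw [dif_pos h, if_pos hR]
      rw [hop]
      rcases hg.stepR hi hR hch with h1 | h1 | h1
      · exact ⟨_, by simp, h1, hnP _⟩
      · exact ⟨_, by simp, h1, hnP _⟩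
      · exact ⟨_, by simp, h1, by rw [update_self]; decide⟩
    · by_cases hF : lab w = Lab.F
      · have hop : opts c lab i (χ i (κ i + 1)) = {update lab w Lab.A, lab} := by
          unfold opts; rw [dif_pos h, if_neg hR, if_pos hF]
        rw [hop]
        rcases hg.stepF hi hF hch with h1 | h1
        · exact ⟨_, by simp, h1, hnP _⟩
        · exact ⟨_, by simp, h1, by rw [hi]; decide⟩
      · have hop : opts c lab i (χ i (κ i + 1)) = {lab} := by
          unfold opts; rw [dif_pos h, if_neg hR, if_neg hF]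
        rw [hop]
        have hP : lab w = Lab.P := by
          have h1 := hw.1
          cases hl : lab w with
          | P => rfl
          | R => exact absurd hl hR
          | F => exact absurd hl hF
          | A => exact absurd hl h1
        exact ⟨lab, by simp, hg.stepP hi hP hch, by rw [hi]; decide⟩
  · have hop : opts c lab i (χ i (κ i + 1)) = {update lab i Lab.R} := by
      unfold opts; rw [dif_neg h]
    rw [hop]
    refine ⟨_, by simp, hg.stepE hi ?_, by rw [update_self]; decide⟩
    intro w hw hch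
    exact h ⟨w, hw, by rw [hc]; exact hch⟩

theorem path_of_good {χ : Fin n → ℕ → Fin m} (T : ℕ) : ∀ (κ : Fin n → ℕ) (c : Fin n → Fin m)
    (lab : Fin n → Lab), Good χ κ lab → (∃ i, lab i ≠ Lab.P) → (∀ a, c a = χ a (κ a)) →
    Path χ T κ c lab := by
  induction T with
  | zero => intro κ c lab _ _ _; trivial
  | succ T ih =>
    intro κ c lab hg hne hc
    have h := hg.exists_free hne
    obtain ⟨lab', hmem, hg', hP⟩ := exists_opt hg hc h.choose_spec
    refine ⟨h, lab', hmem, ih _ _ _ hg' ⟨_, hP⟩ ?_⟩
    intro a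
    by_cases ha : a = h.choose
    · rw [ha, update_self, update_self]
    · rw [update_of_ne ha, update_of_ne ha, hc]

theorem path_congr {χ χ' : Fin n → ℕ → Fin m} (T : ℕ) : ∀ (κ : Fin n → ℕ) (c : Fin n → Fin m)
    (lab : Fin n → Lab), (∀ a k, κ a < k → k ≤ κ a + T → χ a k = χ' a k) →
    Path χ T κ c lab → Path χ' T κ c lab := by
  induction T with
  | zero => intro κ c lab _ _; trivial
  | succ T ih =>
    intro κ c lab hχ hp
    obtain ⟨h, lab', hmem, hp'⟩ := hp
    have he := hχ h.choose (κ h.choose + 1) (by omega) (by omega)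
    rw [he] at hmem hp'
    refine ⟨h, lab', hmem, ih _ _ _ ?_ hp'⟩
    intro a k h1 h2
    by_cases ha : a = h.choose
    · subst ha
      rw [update_self] at h1 h2
      exact hχ _ k (by omega) (by omega)
    · rw [update_of_ne ha] at h1 h2
      exact hχ _ k (by omega) (by omega)

/-- Weight of a label. -/
noncomputable def wt (Y Z : ℝ) : Lab → ℝ
  | Lab.P => 1
  | Lab.R => 1
  | Lab.F => Z
  | Lab.A => Y

/-- Weight of a labelling. -/
noncomputable def W (Y Z : ℝ) (lab : Fin n → Lab) : ℝ := ∏ a, wt Y Z (lab a)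

theorem wt_pos {Y Z : ℝ} (hY : 0 < Y) (hZ : 0 < Z) (l : Lab) : 0 < wt Y Z l := by
  cases l <;> simp [wt, hY, hZ]

theorem W_pos {Y Z : ℝ} (hY : 0 < Y) (hZ : 0 < Z) (lab : Fin n → Lab) : 0 < W Y Z lab :=
  Finset.prod_pos fun a _ => wt_pos hY hZ _

theorem W_update (Y Z : ℝ) (lab : Fin n → Lab) (a : Fin n) (x : Lab) :
    W Y Z (update lab a x) * wt Y Z (lab a) = W Y Z lab * wt Y Z x := by
  unfold W
  have h1 : ∏ b, wt Y Z (update lab a x b) = wt Y Z x * ∏ b ∈ univ.erase a, wt Y Z (lab b) := by
    rw [← Finset.mul_prod_erase univ _ (mem_univ a), update_self]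
    congr 1
    apply Finset.prod_congr rfl
    intro b hb
    rw [update_of_ne (Finset.ne_of_mem_erase hb)]
  rw [h1, ← Finset.mul_prod_erase univ (fun b => wt Y Z (lab b)) (mem_univ a)]
  ring

theorem W_ge {Y Z : ℝ} (hY : 1 ≤ Y) (hZ : 0 < Z) (hZ1 : Z ≤ 1) (lab : Fin n → Lab) :
    Z ^ n ≤ W Y Z lab := by
  unfold W
  calc Z ^ n = ∏ _a : Fin n, Z := by simp
    _ ≤ ∏ a, wt Y Z (lab a) := by
      apply Finset.prod_le_prod
      · intro a _; exact hZ.le
      · intro a _
        cases lab a <;> simp [wt] <;> linarith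

theorem W_le {Y Z : ℝ} (hY : 1 ≤ Y) (hZ : 0 < Z) (hZ1 : Z ≤ 1) (lab : Fin n → Lab) :
    W Y Z lab ≤ Y ^ n := by
  unfold W
  calc ∏ a, wt Y Z (lab a) ≤ ∏ _a : Fin n, Y := by
        apply Finset.prod_le_prod
        · intro a _; exact (wt_pos (by linarith) hZ _).le
        · intro a _
          cases lab a <;> simp [wt] <;> linarith
    _ = Y ^ n := by simp

theorem sum_insert_le' {β : Type} [DecidableEq β] (f : β → ℝ) (hf : ∀ x, 0 ≤ f x) (a : β)
    (s : Finset β) : ∑ x ∈ insert a s, f x ≤ f a + ∑ x ∈ s, f x := by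
  by_cases ha : a ∈ s
  · rw [Finset.insert_eq_of_mem ha]; linarith [hf a]
  · rw [Finset.sum_insert ha]

theorem sum_opts_occ {Y Z K : ℝ} (hY : 1 ≤ Y) (hZ : 0 < Z) (hK1 : Y + 2 * Z ≤ K)
    (hK2 : Y / Z + 1 ≤ K) (c : Fin n → Fin m) (lab : Fin n → Lab) {i : Fin n}
    (hi : lab i = Lab.A) (g : Fin m) (h : ∃ w, lab w ≠ Lab.A ∧ c w = g) :
    ∑ lab' ∈ opts c lab i g, W Y Z lab' ≤ K * W Y Z lab := by
  have hY0 : 0 < Y := by linarith
  have hW := W_pos hY0 hZ lab
  have hnn : ∀ l : Fin n → Lab, 0 ≤ W Y Z l := fun l => (W_pos hY0 hZ l).le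
  have hw := h.choose_spec
  set w := h.choose with hwdef
  have hiw : i ≠ w := by
    intro h'; apply hw.1; rw [← h']; exact hi
  by_cases hR : lab w = Lab.R
  · have hop : opts c lab i g = {update lab w Lab.A, update lab w Lab.F,
        update (update lab w Lab.A) i Lab.F} := by
      unfold opts; rw [dif_pos h, if_pos hR]
    rw [hop]
    have e1 : W Y Z (update lab w Lab.A) = Y * W Y Z lab := by
      have := W_update Y Z lab w Lab.A
      rw [hR] at this; simp only [wt] at this; linarith
    have e2 : W Y Z (update lab w Lab.F) = Z * W Y Z lab := by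
      have := W_update Y Z lab w Lab.F
      rw [hR] at this; simp only [wt] at this; linarith
    have e3 : W Y Z (update (update lab w Lab.A) i Lab.F) = Z * W Y Z lab := by
      have := W_update Y Z (update lab w Lab.A) i Lab.F
      rw [update_of_ne hiw, hi, e1] at this; simp only [wt] at this
      have h2 : (W Y Z (update (update lab w Lab.A) i Lab.F) - Z * W Y Z lab) * Y = 0 := by
        linarith
      rcases mul_eq_zero.1 h2 with h3 | h3
      · linarith
      · linarith
    have t1 := sum_insert_le' (W Y Z) hnn (update lab w Lab.A)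
      {update lab w Lab.F, update (update lab w Lab.A) i Lab.F}
    have t2 := sum_insert_le' (W Y Z) hnn (update lab w Lab.F)
      {update (update lab w Lab.A) i Lab.F}
    rw [Finset.sum_singleton] at t2
    rw [e1] at t1; rw [e2, e3] at t2
    nlinarith
  · by_cases hF : lab w = Lab.F
    · have hop : opts c lab i g = {update lab w Lab.A, lab} := by
        unfold opts; rw [dif_pos h, if_neg hR, if_pos hF]
      rw [hop]
      have e1 : W Y Z (update lab w Lab.A) = Y / Z * W Y Z lab := by
        have := W_update Y Z lab w Lab.A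
        rw [hF] at this; simp only [wt] at this
        field_simp; linarith
      have t1 := sum_insert_le' (W Y Z) hnn (update lab w Lab.A) {lab}
      rw [Finset.sum_singleton, e1] at t1
      nlinarith
    · have hop : opts c lab i g = {lab} := by
        unfold opts; rw [dif_pos h, if_neg hR, if_neg hF]
      rw [hop, Finset.sum_singleton]
      nlinarith

theorem sum_opts_emp {Y Z : ℝ} (hY : 1 ≤ Y) (c : Fin n → Fin m) (lab : Fin n → Lab)
    {i : Fin n} (hi : lab i = Lab.A) (g : Fin m) (h : ¬ ∃ w, lab w ≠ Lab.A ∧ c w = g) :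
    ∑ lab' ∈ opts c lab i g, W Y Z lab' = W Y Z lab / Y := by
  have hop : opts c lab i g = {update lab i Lab.R} := by
    unfold opts; rw [dif_neg h]
  rw [hop, Finset.sum_singleton]
  have := W_update Y Z lab i Lab.R
  rw [hi] at this; simp only [wt] at this
  field_simp; linarith

/-- The potential decreases on average. -/
theorem potential {Y Z K : ℝ} (hY : 1 ≤ Y) (hZ : 0 < Z) (hK1 : Y + 2 * Z ≤ K)
    (hK2 : Y / Z + 1 ≤ K) (hnm : n ≤ m) (c : Fin n → Fin m) (lab : Fin n → Lab) {i : Fin n}
    (hi : lab i = Lab.A) :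
    ∑ g : Fin m, ∑ lab' ∈ opts c lab i g, W Y Z lab' ≤
      (n * K + (m - n) / Y) * W Y Z lab := by
  classical
  have hY0 : 0 < Y := by linarith
  have hW := W_pos hY0 hZ lab
  set O : Finset (Fin m) := univ.filter fun g => ∃ w, lab w ≠ Lab.A ∧ c w = g with hO
  have hOn : O.card ≤ n := by
    have h1 : O ⊆ univ.image c := by
      intro g hg
      rw [hO, mem_filter] at hg
      obtain ⟨-, w, -, hw⟩ := hg
      exact mem_image.2 ⟨w, mem_univ _, hw⟩
    calc O.card ≤ (univ.image c).card := card_le_card h1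
      _ ≤ (univ : Finset (Fin n)).card := card_image_le
      _ = n := by simp
  have h1 : ∑ g : Fin m, ∑ lab' ∈ opts c lab i g, W Y Z lab' ≤
      ∑ g : Fin m, (if g ∈ O then K * W Y Z lab else W Y Z lab / Y) := by
    apply Finset.sum_le_sum
    intro g _
    by_cases hg : g ∈ O
    · rw [if_pos hg]
      rw [hO, mem_filter] at hg
      exact sum_opts_occ hY hZ hK1 hK2 c lab hi g hg.2
    · rw [if_neg hg]
      have : ¬ ∃ w, lab w ≠ Lab.A ∧ c w = g := fun h => hg (by rw [hO, mem_filter]; exact ⟨mem_univ _, h⟩)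
      exact (sum_opts_emp hY c lab hi g this).le
  refine h1.trans ?_
  rw [Finset.sum_ite]
  have e1 : (univ.filter fun g => g ∈ O) = O := by ext g; simp
  have e2 : (univ.filter fun g => ¬ g ∈ O) = Oᶜ := by ext g; simp
  rw [e1, e2, Finset.sum_const, Finset.sum_const, card_compl, Fintype.card_fin, nsmul_eq_mul,
    nsmul_eq_mul, Nat.cast_sub (hOn.trans hnm)]
  have hon : (O.card : ℝ) ≤ n := by exact_mod_cast hOn
  have hKY : 1 / Y ≤ K := by
    have : 1 / Y ≤ 1 := by rw [div_le_one hY0]; exact hY
    linarith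
  have h2 : 0 ≤ ((n : ℝ) - O.card) * (K - 1 / Y) := mul_nonneg (by linarith) (by linarith)
  have h3 : 0 ≤ ((n : ℝ) - O.card) * (K - 1 / Y) * W Y Z lab := mul_nonneg h2 hW.le
  have e3 : (n * K + ((m : ℝ) - n) / Y) * W Y Z lab -
      (O.card * (K * W Y Z lab) + ((m : ℝ) - O.card) * (W Y Z lab / Y)) =
      ((n : ℝ) - O.card) * (K - 1 / Y) * W Y Z lab := by
    field_simp; ring
  linarith

variable {L : ℕ}

theorem nxt_iter_val (k : ℕ) (x : Fin L) : (nxt^[k] x).val = (x.val + k) % L := by
  induction k with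
  | zero => simp [Nat.mod_eq_of_lt x.isLt]
  | succ k ih =>
    rw [iterate_succ_apply']
    show ((nxt^[k] x).val + 1) % L = _
    rw [ih, Nat.mod_add_mod, Nat.add_assoc]

theorem nxt_iter_ne {k k' : ℕ} (x : Fin L) (h1 : k < k') (h2 : k' < k + L) :
    nxt^[k'] x ≠ nxt^[k] x := by
  intro h
  have h3 := congrArg Fin.val h
  rw [nxt_iter_val, nxt_iter_val] at h3
  have h4 : (x.val + k') ≡ (x.val + k) [MOD L] := h3
  have h5 : (L : ℤ) ∣ ((x.val + k : ℕ) : ℤ) - ((x.val + k' : ℕ) : ℤ) := (Nat.modEq_iff_dvd).1 h4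
  obtain ⟨q, hq⟩ := h5
  push_cast at hq
  have hL : (0 : ℤ) < L := by exact_mod_cast Fin.pos x
  have hq1 : (L : ℤ) * q < 0 := by omega
  have hq2 : -(L : ℤ) < (L : ℤ) * q := by omega
  have hq3 : q < 0 := by by_contra hq'; push Not at hq'; nlinarith
  have hq4 : -1 < q := by by_contra hq'; push Not at hq'; nlinarith
  omega

/-- Fixing one letter costs a factor `m`. -/
theorem card_fiber (Q : (Fin n → Fin L → Fin m) → Prop) (i : Fin n) (p : Fin L)
    (hQ : ∀ w g, Q w → Q (update w i (update (w i) p g))) (g : Fin m) :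
    open Classical in
    (univ.filter fun w : Fin n → Fin L → Fin m => w i p = g ∧ Q w).card * m =
      (univ.filter fun w : Fin n → Fin L → Fin m => Q w).card := by
  classical
  have hsum : (univ.filter fun w : Fin n → Fin L → Fin m => Q w).card =
      ∑ g' : Fin m, (univ.filter fun w : Fin n → Fin L → Fin m => w i p = g' ∧ Q w).card := by
    rw [Finset.card_eq_sum_card_fiberwise (f := fun w : Fin n → Fin L → Fin m => w i p)
      (t := univ) (fun _ _ => mem_univ _)]
    apply Finset.sum_congr rfl
    intro g' _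
    congr 1
    ext w
    simp only [mem_filter, mem_univ, true_and]
    tauto
  have heq : ∀ g' : Fin m,
      (univ.filter fun w : Fin n → Fin L → Fin m => w i p = g' ∧ Q w).card =
      (univ.filter fun w : Fin n → Fin L → Fin m => w i p = g ∧ Q w).card := by
    intro g'
    refine Finset.card_bij' (fun w _ => update w i (update (w i) p g))
      (fun w _ => update w i (update (w i) p g')) ?_ ?_ ?_ ?_
    · intro w hw
      rw [mem_filter] at hw ⊢
      exact ⟨mem_univ _, by simp, hQ w g hw.2.2⟩
    · intro w hw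
      rw [mem_filter] at hw ⊢
      exact ⟨mem_univ _, by simp, hQ w g' hw.2.2⟩
    · intro w hw
      rw [mem_filter] at hw
      simp only [update_self, update_idem]
      rw [← hw.2.1, update_eq_self, update_eq_self]
    · intro w hw
      rw [mem_filter] at hw
      simp only [update_self, update_idem]
      rw [← hw.2.1, update_eq_self, update_eq_self]
  rw [hsum, Finset.sum_congr rfl (fun g' _ => heq g'), Finset.sum_const, card_univ,
    Fintype.card_fin, smul_eq_mul, mul_comm]

/-- The number of word families with a labelled path. -/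
theorem count_path {Y Z K : ℝ} (hY : 1 ≤ Y) (hZ : 0 < Z) (hZ1 : Z ≤ 1) (hK1 : Y + 2 * Z ≤ K)
    (hK2 : Y / Z + 1 ≤ K) (hnm : n ≤ m) (hm : 0 < m) (s : Fin n → Fin L) (T : ℕ) :
    ∀ (κ : Fin n → ℕ) (c : Fin n → Fin m) (lab : Fin n → Lab), T < L →
    open Classical in
    ((univ.filter fun w : Fin n → Fin L → Fin m => Path (chairs w s) T κ c lab).card : ℝ) *
      Z ^ n ≤ (m : ℝ) ^ (n * L) * ((n * K + (m - n) / Y) / m) ^ T * W Y Z lab := by
  classical
  have hm0 : (0 : ℝ) < m := by exact_mod_cast hm
  have hY0 : 0 < Y := by linarith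
  have hZn : 0 < Z ^ n := pow_pos hZ n
  have hlam : 0 ≤ (n * K + ((m : ℝ) - n) / Y) / m := by
    have h1 : (n : ℝ) ≤ m := by exact_mod_cast hnm
    have h2 : 0 ≤ K := by linarith
    have h3 : 0 ≤ ((m : ℝ) - n) / Y := div_nonneg (by linarith) hY0.le
    positivity
  induction T with
  | zero =>
    intro κ c lab _
    rw [pow_zero, mul_one]
    have h1 : ((univ.filter fun w : Fin n → Fin L → Fin m =>
        Path (chairs w s) 0 κ c lab).card : ℝ) ≤ (m : ℝ) ^ (n * L) := by
      have h2 := Finset.card_le_univ (univ.filter fun w : Fin n → Fin L → Fin m =>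
        Path (chairs w s) 0 κ c lab)
      have h3 : Fintype.card (Fin n → Fin L → Fin m) = m ^ (n * L) := by
        simp only [Fintype.card_pi, Fintype.card_fin, prod_const, card_univ]
        rw [← pow_mul, mul_comm]
      rw [h3] at h2
      exact_mod_cast h2
    exact mul_le_mul h1 (W_ge hY hZ hZ1 lab) hZn.le (by positivity)
  | succ T ih =>
    intro κ c lab hT
    by_cases h : ∃ i, lab i = Lab.A
    · have hi := h.choose_spec
      set i := h.choose with hidef
      set p := nxt^[κ i + 1] (s i) with hp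
      set N : Fin m → (Fin n → Lab) → Finset (Fin n → Fin L → Fin m) := fun g lab' =>
        univ.filter fun w : Fin n → Fin L → Fin m => w i p = g ∧
          Path (chairs w s) T (update κ i (κ i + 1)) (update c i g) lab' with hN
      have hsub : (univ.filter fun w : Fin n → Fin L → Fin m =>
          Path (chairs w s) (T + 1) κ c lab) ⊆
          (univ : Finset (Fin m)).biUnion fun g => (opts c lab i g).biUnion fun lab' => N g lab' := by
        intro w hw
        rw [mem_filter] at hw
        obtain ⟨-, h', lab', hmem, hpath⟩ := hw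
        rw [mem_biUnion]
        refine ⟨chairs w s i (κ i + 1), mem_univ _, ?_⟩
        rw [mem_biUnion]
        refine ⟨lab', hmem, ?_⟩
        rw [hN, mem_filter]
        exact ⟨mem_univ _, rfl, hpath⟩
      have hcard : ((univ.filter fun w : Fin n → Fin L → Fin m =>
          Path (chairs w s) (T + 1) κ c lab).card : ℝ) ≤
          ∑ g : Fin m, ∑ lab' ∈ opts c lab i g, ((N g lab').card : ℝ) := by
        have h1 := (card_le_card hsub).trans card_biUnion_le
        have h2 : ∑ g : Fin m, ((opts c lab i g).biUnion fun lab' => N g lab').card ≤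
            ∑ g : Fin m, ∑ lab' ∈ opts c lab i g, (N g lab').card :=
          Finset.sum_le_sum fun g _ => card_biUnion_le
        exact_mod_cast h1.trans h2
      have hN1 : ∀ g lab', ((N g lab').card : ℝ) * m * Z ^ n ≤
          (m : ℝ) ^ (n * L) * ((n * K + (m - n) / Y) / m) ^ T * W Y Z lab' := by
        intro g lab'
        have h1 := card_fiber (n := n) (m := m) (L := L)
          (fun w => Path (chairs w s) T (update κ i (κ i + 1)) (update c i g) lab') i p ?_ g
        · have h2 := ih (update κ i (κ i + 1)) (update c i g) lab' (by omega)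
          rw [← h1] at h2
          push_cast at h2
          exact h2
        · intro w g' hw
          refine path_congr T _ _ _ ?_ hw
          intro a k hk1 hk2
          unfold chairs
          by_cases ha : a = i
          · rw [ha] at hk1 hk2 ⊢
            rw [update_self] at hk1 hk2
            rw [update_self, update_of_ne]
            exact nxt_iter_ne (s i) (by omega) (by omega)
          · rw [update_of_ne ha]
      have hsum : ∑ g : Fin m, ∑ lab' ∈ opts c lab i g, ((N g lab').card : ℝ) * m * Z ^ n ≤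
          ∑ g : Fin m, ∑ lab' ∈ opts c lab i g,
            (m : ℝ) ^ (n * L) * ((n * K + (m - n) / Y) / m) ^ T * W Y Z lab' :=
        Finset.sum_le_sum fun g _ => Finset.sum_le_sum fun lab' _ => hN1 g lab'
      have hpot := potential hY hZ hK1 hK2 hnm c lab hi
      have e1 : ∑ g : Fin m, ∑ lab' ∈ opts c lab i g,
            (m : ℝ) ^ (n * L) * ((n * K + (m - n) / Y) / m) ^ T * W Y Z lab' =
          (m : ℝ) ^ (n * L) * ((n * K + (m - n) / Y) / m) ^ T *
            ∑ g : Fin m, ∑ lab' ∈ opts c lab i g, W Y Z lab' := by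
        simp only [Finset.mul_sum]
      have e2 : ∑ g : Fin m, ∑ lab' ∈ opts c lab i g, ((N g lab').card : ℝ) * m * Z ^ n =
          (∑ g : Fin m, ∑ lab' ∈ opts c lab i g, ((N g lab').card : ℝ)) * (m * Z ^ n) := by
        simp only [Finset.sum_mul, mul_assoc]
      rw [e1, e2] at hsum
      have hb : 0 ≤ (m : ℝ) ^ (n * L) * ((n * K + (m - n) / Y) / m) ^ T := by positivity
      have h5 := hsum.trans (mul_le_mul_of_nonneg_left hpot hb)
      have h6 : ((univ.filter fun w : Fin n → Fin L → Fin m =>
          Path (chairs w s) (T + 1) κ c lab).card : ℝ) * Z ^ n * m ≤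
          (m : ℝ) ^ (n * L) * ((n * K + (m - n) / Y) / m) ^ T *
            ((n * K + (m - n) / Y) * W Y Z lab) := by
        refine le_trans ?_ h5
        have := mul_le_mul_of_nonneg_right hcard (show 0 ≤ (m : ℝ) * Z ^ n by positivity)
        linarith
      rw [← mul_le_mul_iff_left₀ hm0]
      refine h6.trans (le_of_eq ?_)
      rw [pow_succ]
      field_simp
    · have h0 : (univ.filter fun w : Fin n → Fin L → Fin m =>
          Path (chairs w s) (T + 1) κ c lab) = ∅ := by
        rw [Finset.filter_eq_empty_iff]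
        rintro w - ⟨h', _⟩
        exact h h'
      rw [h0, card_empty, Nat.cast_zero, zero_mul]
      have := W_pos hY0 hZ lab
      positivity

/-- COUNT: few families admit an infinite play. -/
theorem bad_le (n m L : ℕ) (hm : 61 * n ≤ 10 * m) (hm0 : 0 < m) (hL : 0 < L) :
    (Nat.card {w : Fin n → Fin L → Fin m // InfinitePlay w} : ℝ) ≤
      (11 * m * L) ^ n * (9999 / 10000) ^ (L - 1) * (m : ℝ) ^ (n * L) := by
  classical
  set Y : ℝ := 54 / 25 with hY
  set Z : ℝ := 789 / 1000 with hZ
  set K : ℝ := 3738 / 1000 with hK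
  have hY1 : (1 : ℝ) ≤ Y := by rw [hY]; norm_num
  have hY0 : (0 : ℝ) < Y := by linarith
  have hZ0 : (0 : ℝ) < Z := by rw [hZ]; norm_num
  have hZ1 : Z ≤ 1 := by rw [hZ]; norm_num
  have hK1 : Y + 2 * Z ≤ K := by rw [hY, hZ, hK]; norm_num
  have hK2 : Y / Z + 1 ≤ K := by rw [hY, hZ, hK]; norm_num
  have hmR : (61 : ℝ) * n ≤ 10 * m := by exact_mod_cast hm
  have hm0R : (0 : ℝ) < m := by exact_mod_cast hm0
  have hnm : n ≤ m := by omega
  set lam : ℝ := (n * K + ((m : ℝ) - n) / Y) / m with hlamdef
  have hnmR : (n : ℝ) ≤ m := by exact_mod_cast hnm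
  have hlam0 : 0 ≤ lam := by
    have h3 : 0 ≤ ((m : ℝ) - n) / Y := div_nonneg (by linarith) hY0.le
    rw [hlamdef]; positivity
  have hlam : lam ≤ 9999 / 10000 := by
    rw [hlamdef, div_le_iff₀ hm0R, hK, hY]
    nlinarith
  have hZn : 0 < Z ^ n := pow_pos hZ0 n
  -- the sets of words with a labelled path
  set B : (Fin n → Fin L) × (Fin n → Fin m) × (Fin n → Lab) → Finset (Fin n → Fin L → Fin m) :=
    fun x => univ.filter fun w => Path (chairs w x.1) (L - 1) 0 x.2.1 x.2.2 with hB
  have hBcard : ∀ x, ((B x).card : ℝ) ≤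
      (Y / Z) ^ n * ((m : ℝ) ^ (n * L) * (9999 / 10000) ^ (L - 1)) := by
    intro x
    have h1 := count_path hY1 hZ0 hZ1 hK1 hK2 hnm hm0 x.1 (L - 1) 0 x.2.1 x.2.2 (by omega)
    have h2 : ((B x).card : ℝ) * Z ^ n ≤ (m : ℝ) ^ (n * L) * (9999 / 10000) ^ (L - 1) * Y ^ n := by
      refine h1.trans ?_
      gcongr
      · exact (W_pos hY0 hZ0 _).le
      · exact W_le hY1 hZ0 hZ1 _
    rw [div_pow, div_mul_eq_mul_div, le_div_iff₀ hZn]
    linarith
  have hsub : (univ.filter fun w : Fin n → Fin L → Fin m => InfinitePlay w) ⊆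
      univ.biUnion B := by
    intro w hw
    rw [mem_filter] at hw
    obtain ⟨s, lab, hg, hne⟩ := exists_good hw.2
    rw [mem_biUnion]
    refine ⟨(s, fun a => chairs w s a 0, lab), mem_univ _, ?_⟩
    rw [hB, mem_filter]
    exact ⟨mem_univ _, path_of_good _ _ _ _ hg hne (fun a => rfl)⟩
  have hcard : Nat.card {w : Fin n → Fin L → Fin m // InfinitePlay w} =
      (univ.filter fun w : Fin n → Fin L → Fin m => InfinitePlay w).card := by
    rw [Nat.card_eq_fintype_card, Fintype.card_subtype]
  rw [hcard]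
  have h1 : ((univ.filter fun w : Fin n → Fin L → Fin m => InfinitePlay w).card : ℝ) ≤
      ∑ x, ((B x).card : ℝ) := by
    exact_mod_cast (card_le_card hsub).trans card_biUnion_le
  refine h1.trans ((Finset.sum_le_card_nsmul _ _ _ fun x _ => hBcard x).trans ?_)
  rw [nsmul_eq_mul, card_univ, Fintype.card_prod, Fintype.card_prod]
  simp only [Fintype.card_pi, Fintype.card_fin, prod_const, card_univ, card_lab]
  push_cast
  have e1 : ((L : ℝ) ^ n * ((m : ℝ) ^ n * 4 ^ n)) *
      ((Y / Z) ^ n * ((m : ℝ) ^ (n * L) * (9999 / 10000) ^ (L - 1))) =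
      (4 * (Y / Z) * m * L) ^ n * (9999 / 10000) ^ (L - 1) * (m : ℝ) ^ (n * L) := by
    rw [mul_pow, mul_pow, mul_pow]; ring
  rw [e1]
  have e2 : 4 * (Y / Z) ≤ 11 := by rw [hY, hZ]; norm_num
  gcongr

end Pool.H34.MC
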