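import Mathlib

/-!
The musical chairs game: definitions.
-/

namespace Pool.H34.MC

open Filter Topology

/-- The next position in a word of length `L` that is traversed cyclically. -/
def nxt {L : ℕ} (k : Fin L) : Fin L := ⟨(k.val + 1) % L, Nat.mod_lt _ (Fin.pos k)⟩

/-- With player `j` at position `pos j` of its word `w j`, player `i` shares its chair with
another player. -/
def Conflict {n m L : ℕ} (w : Fin n → Fin L → Fin m) (pos : Fin n → Fin L) (i : Fin n) : Prop :=
  ∃ j, j ≠ i ∧ w j (pos j) = w i (pos i)

/-- Some scheduler makes the game on the words `w` last for ever: there are positions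
`pos 0, pos 1, …` and nonempty sets `mv 0, mv 1, …` of players in conflict such that in round `t`
exactly the players of `mv t` move on by one position. -/
def InfinitePlay {n m L : ℕ} (w : Fin n → Fin L → Fin m) : Prop :=
  ∃ (pos : ℕ → Fin n → Fin L) (mv : ℕ → Finset (Fin n)), ∀ t,
    (mv t).Nonempty ∧ (∀ i ∈ mv t, Conflict w (pos t) i) ∧
      ∀ i, pos (t + 1) i = if i ∈ mv t then nxt (pos t i) else pos t i

/-- The words `w` form an oblivious algorithm: they are full and every game on them ends. -/
def IsAlgorithm {n m L : ℕ} (w : Fin n → Fin L → Fin m) : Prop :=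
  (∀ i, Function.Surjective (w i)) ∧ ¬ InfinitePlay w

/-- The probability that `n` independent uniformly random words of length `L` over `m` letters form
an oblivious algorithm. -/
noncomputable def prob (n m L : ℕ) : ℝ :=
  (Nat.card {w : Fin n → Fin L → Fin m // IsAlgorithm w} : ℝ) /
    (Nat.card (Fin n → Fin L → Fin m) : ℝ)

/-- The threshold `c*`: the infimum of `liminf m(n) / n` over all sequences `m(n)`, `L(n)` of
positive integers (`n ≥ 1`) for which the probability tends to `1`. -/
noncomputable def cstar : ENNReal :=
  sInf {x | ∃ m L : ℕ → ℕ, (∀ n, 0 < n → 0 < m n ∧ 0 < L n) ∧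
    Tendsto (fun n => prob n (m n) (L n)) atTop (𝓝 1) ∧
    x = liminf (fun n => (m n : ENNReal) / (n : ENNReal)) atTop}

end Pool.H34.MC
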