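import Pool.Agent.H34.MC.Count

/-!
FULL and PROB: few families contain a word that is not full; the probability bound.
-/

namespace Pool.H34.MC

open Function

section Full

variable {n m L : ℕ}

open Classical in
theorem card_avoid (i : Fin n) (c : Fin m) (hm0 : 0 < m) :
    ((Finset.univ.filter fun w : Fin n → Fin L → Fin m => ∀ k, w i k ≠ c).card : ℝ) =
      (1 - 1 / (m : ℝ)) ^ L * (m : ℝ) ^ (n * L) := by
  have hm : (m : ℝ) ≠ 0 := by exact_mod_cast hm0.ne'
  have h1 : (Finset.univ.filter fun w : Fin n → Fin L → Fin m => ∀ k, w i k ≠ c) =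
      Fintype.piFinset (fun j : Fin n =>
        if j = i then Fintype.piFinset (fun _ : Fin L => (Finset.univ : Finset (Fin m)).erase c)
        else (Finset.univ : Finset (Fin L → Fin m))) := by
    ext w
    simp only [Finset.mem_filter, Finset.mem_univ, true_and, Fintype.mem_piFinset]
    constructor
    · intro h j
      by_cases hj : j = i
      · subst hj
        rw [if_pos rfl, Fintype.mem_piFinset]
        intro k
        exact Finset.mem_erase.2 ⟨h k, Finset.mem_univ _⟩
      · rw [if_neg hj]; exact Finset.mem_univ _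
    · intro h k
      have := h i
      rw [if_pos rfl, Fintype.mem_piFinset] at this
      exact (Finset.mem_erase.1 (this k)).1
  rw [h1, Fintype.card_piFinset]
  push_cast
  have h2 : ∀ j : Fin n, (((if j = i then
        Fintype.piFinset (fun _ : Fin L => (Finset.univ : Finset (Fin m)).erase c)
        else (Finset.univ : Finset (Fin L → Fin m))).card : ℕ) : ℝ) =
      (if j = i then (1 - 1 / (m : ℝ)) ^ L else 1) * (m : ℝ) ^ L := by
    intro j
    by_cases hj : j = i
    · rw [if_pos hj, if_pos hj, Fintype.card_piFinset]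
      simp only [Finset.prod_const, Finset.card_univ, Fintype.card_fin,
        Finset.card_erase_of_mem (Finset.mem_univ c)]
      rw [← mul_pow]
      push_cast [Nat.cast_sub (show 1 ≤ m from hm0)]
      congr 1
      field_simp
    · rw [if_neg hj, if_neg hj, one_mul]
      simp
  rw [Finset.prod_congr rfl (fun j _ => h2 j), Finset.prod_mul_distrib, Finset.prod_ite_eq',
    if_pos (Finset.mem_univ i)]
  simp [pow_mul, mul_comm n L]

/-- FULL: few families contain a word that is not full. -/
theorem nonfull_le (n m L : ℕ) (hm0 : 0 < m) :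
    (Nat.card {w : Fin n → Fin L → Fin m // ¬ ∀ i, Function.Surjective (w i)} : ℝ) ≤
      n * m * (1 - 1 / (m : ℝ)) ^ L * (m : ℝ) ^ (n * L) := by
  classical
  rw [Nat.card_eq_fintype_card, Fintype.card_subtype]
  have hsub : (Finset.univ.filter fun w : Fin n → Fin L → Fin m =>
      ¬ ∀ i, Function.Surjective (w i)) ⊆
      (Finset.univ : Finset (Fin n × Fin m)).biUnion fun q =>
        Finset.univ.filter fun w : Fin n → Fin L → Fin m => ∀ k, w q.1 k ≠ q.2 := by
    intro w hw
    rw [Finset.mem_filter] at hw
    have h2 := hw.2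
    push Not at h2
    obtain ⟨i, hi⟩ := h2
    unfold Function.Surjective at hi
    push Not at hi
    obtain ⟨c, hc⟩ := hi
    rw [Finset.mem_biUnion]
    exact ⟨(i, c), Finset.mem_univ _, Finset.mem_filter.2 ⟨Finset.mem_univ _, hc⟩⟩
  have h1 : ((Finset.univ.filter fun w : Fin n → Fin L → Fin m =>
      ¬ ∀ i, Function.Surjective (w i)).card : ℝ) ≤
      ∑ q : Fin n × Fin m,
        ((Finset.univ.filter fun w : Fin n → Fin L → Fin m => ∀ k, w q.1 k ≠ q.2).card : ℝ) := by
    exact_mod_cast (Finset.card_le_card hsub).trans Finset.card_biUnion_le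
  refine h1.trans (le_of_eq ?_)
  have h3 : ∀ q : Fin n × Fin m,
      ((Finset.univ.filter fun w : Fin n → Fin L → Fin m => ∀ k, w q.1 k ≠ q.2).card : ℝ) =
      (1 - 1 / (m : ℝ)) ^ L * (m : ℝ) ^ (n * L) := by
    intro q
    have := card_avoid (L := L) q.1 q.2 hm0
    convert this
  rw [Finset.sum_congr rfl (fun q _ => h3 q), Finset.sum_const, Finset.card_univ,
    Fintype.card_prod, Fintype.card_fin, Fintype.card_fin, nsmul_eq_mul]
  push_cast
  ring

end Full

/-- PROB, from a bound for the number of families with an infinite play. -/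
theorem one_sub_prob_le_of (n m L : ℕ) (hm0 : 0 < m) (B : ℝ)
    (hB : (Nat.card {w : Fin n → Fin L → Fin m // InfinitePlay w} : ℝ) ≤
      B * (m : ℝ) ^ (n * L)) :
    1 - prob n m L ≤ n * m * (1 - 1 / (m : ℝ)) ^ L + B := by
  classical
  have hm : (0 : ℝ) < m := by exact_mod_cast hm0
  have hT : (Nat.card (Fin n → Fin L → Fin m) : ℝ) = (m : ℝ) ^ (n * L) := by
    rw [Nat.card_eq_fintype_card]
    simp [pow_mul, mul_comm n L]
  have hpos : (0 : ℝ) < (m : ℝ) ^ (n * L) := pow_pos hm _
  have hcount : (Nat.card (Fin n → Fin L → Fin m) : ℝ) ≤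
      Nat.card {w : Fin n → Fin L → Fin m // IsAlgorithm w} +
      (Nat.card {w : Fin n → Fin L → Fin m // ¬ ∀ i, Function.Surjective (w i)} +
      Nat.card {w : Fin n → Fin L → Fin m // InfinitePlay w}) := by
    rw [Nat.card_eq_fintype_card, Nat.card_eq_fintype_card, Nat.card_eq_fintype_card,
      Nat.card_eq_fintype_card, Fintype.card_subtype, Fintype.card_subtype, Fintype.card_subtype,
      ← Finset.card_univ]
    have hsub : (Finset.univ : Finset (Fin n → Fin L → Fin m)) ⊆
        (Finset.univ.filter fun w => IsAlgorithm w) ∪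
        ((Finset.univ.filter fun w => ¬ ∀ i, Function.Surjective (w i)) ∪
        (Finset.univ.filter fun w => InfinitePlay w)) := by
      intro w _
      simp only [Finset.mem_union, Finset.mem_filter, Finset.mem_univ, true_and]
      by_cases h1 : ∀ i, Function.Surjective (w i)
      · by_cases h2 : InfinitePlay w
        · exact Or.inr (Or.inr h2)
        · exact Or.inl ⟨h1, h2⟩
      · exact Or.inr (Or.inl h1)
    have := (Finset.card_le_card hsub).trans ((Finset.card_union_le _ _).trans
      (Nat.add_le_add_left (Finset.card_union_le _ _) _))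
    exact_mod_cast this
  have hnf := nonfull_le n m L hm0
  have h1 : (1 : ℝ) = (Nat.card (Fin n → Fin L → Fin m) : ℝ) / (m : ℝ) ^ (n * L) := by
    rw [hT, div_self hpos.ne']
  unfold prob
  rw [hT]
  rw [hT] at hcount
  rw [sub_le_iff_le_add, ← sub_le_iff_le_add', le_div_iff₀ hpos]
  nlinarith [hcount, hnf, hB]

/-- PROB: from `bad_le` and `nonfull_le`. -/
theorem one_sub_prob_le (n m L : ℕ) (hm : 61 * n ≤ 10 * m) (hm0 : 0 < m) (hL : 0 < L) :
    1 - prob n m L ≤
      n * m * (1 - 1 / (m : ℝ)) ^ L + (11 * m * L) ^ n * (9999 / 10000) ^ (L - 1) :=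
  one_sub_prob_le_of n m L hm0 _ (bad_le n m L hm hm0 hL)

end Pool.H34.MC
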