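import Mathlib

/-!
Labelled schedules for the musical chairs game: plans given by time stamps, the forward and the
backward lemma, and the step lemma.
-/

namespace Pool.H34.MC

open Function

/-- Labels: permanent, resting, frozen, free. -/
inductive Lab
  | P | R | F | A
  deriving DecidableEq

instance : Fintype Lab := ⟨{Lab.P, Lab.R, Lab.F, Lab.A}, by intro x; cases x <;> simp⟩

theorem card_lab : Fintype.card Lab = 4 := rfl

set_option linter.unusedSectionVars false

variable {ι α : Type} [DecidableEq ι]

/-- `E i k` is the time at which player `i` arrives at its `k`-th visit, `χ i k` is the chair of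
that visit, `κ i` is the index of the current visit. -/
structure Plan (χ : ι → ℕ → α) (κ : ι → ℕ) (lab : ι → Lab) (E : ι → ℕ → ℕ∞) : Prop where
  past : ∀ i k, k ≤ κ i → E i k = 0
  perm : ∀ i, lab i = Lab.P → ∀ k, κ i < k → E i k = ⊤
  mono : ∀ i, lab i ≠ Lab.P → ∀ k, κ i ≤ k → E i k < E i (k + 1)
  just : ∀ i, lab i ≠ Lab.P → ∀ k, κ i ≤ k → (k = κ i → lab i = Lab.R) →
    ∃ j l, j ≠ i ∧ κ j ≤ l ∧ (l = κ j → lab j ≠ Lab.A) ∧ χ j l = χ i k ∧
      E i k < E j (l + 1) ∧ E j l < E i (k + 1)

/-- There is a plan. -/
def Inv (χ : ι → ℕ → α) (κ : ι → ℕ) (lab : ι → Lab) : Prop := ∃ E, Plan χ κ lab E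

/-- Maximally free labelled states. -/
structure Good (χ : ι → ℕ → α) (κ : ι → ℕ) (lab : ι → Lab) : Prop where
  inv : Inv χ κ lab
  max : ∀ w, lab w = Lab.F → ¬ Inv χ κ (update lab w Lab.A)
  dist : ∀ a b, a ≠ b → (lab a = Lab.R ∨ lab a = Lab.F) → lab b ≠ Lab.A → χ a (κ a) ≠ χ b (κ b)

variable {χ : ι → ℕ → α} {κ : ι → ℕ} {lab lab' lab1 lab2 : ι → Lab} {E : ι → ℕ → ℕ∞}

namespace Plan

theorem pos_succ (h : Plan χ κ lab E) (a : ι) (k : ℕ) (hk : κ a ≤ k) : 0 < E a (k + 1) := by
  by_cases hp : lab a = Lab.P
  · rw [h.perm a hp (k + 1) (by omega)]; exact ENat.top_pos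
  · exact lt_of_le_of_lt (zero_le) (h.mono a hp k hk)

theorem le_of_le (h : Plan χ κ lab E) (a : ι) (k : ℕ) (hk : κ a + 1 ≤ k) :
    E a (κ a + 1) ≤ E a k := by
  by_cases hp : lab a = Lab.P
  · rw [h.perm a hp k (by omega)]; exact le_top
  · induction k, hk using Nat.le_induction with
    | base => exact le_rfl
    | succ k hk ih => exact ih.trans (h.mono a hp k (by omega)).le

/-- Changing labels so that fewer visits need a partner and no partner is lost. -/
theorem relabel (h : Plan χ κ lab E) (hP : ∀ a, lab' a = Lab.P ↔ lab a = Lab.P)
    (hR : ∀ a, lab' a = Lab.R → lab a = Lab.R) (hA : ∀ a, lab a ≠ Lab.A → lab' a ≠ Lab.A) :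
    Plan χ κ lab' E where
  past := h.past
  perm := fun i hi k hk => h.perm i ((hP i).1 hi) k hk
  mono := fun i hi k hk => h.mono i (fun h' => hi ((hP i).2 h')) k hk
  just := fun i hi k hk hk' => by
    obtain ⟨j, l, h1, h2, h3, h4, h5, h6⟩ :=
      h.just i (fun h' => hi ((hP i).2 h')) k hk (fun h' => hR i (hk' h'))
    exact ⟨j, l, h1, h2, fun h' => hA j (h3 h'), h4, h5, h6⟩

/-- A frozen player that leaves before another present player can be freed. -/
theorem takeover (h : Plan χ κ lab E) {a b : ι} (hab : a ≠ b) (ha : lab a = Lab.F)
    (hb : lab b = Lab.F ∨ lab b = Lab.P) (hch : χ a (κ a) = χ b (κ b))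
    (hle : E a (κ a + 1) ≤ E b (κ b + 1)) : Plan χ κ (update lab a Lab.A) E where
  past := h.past
  perm := fun i hi k hk => by
    have hia : i ≠ a := by rintro rfl; simp at hi
    rw [update_of_ne hia] at hi
    exact h.perm i hi k hk
  mono := fun i hi k hk => by
    by_cases hia : i = a
    · subst hia; exact h.mono i (by rw [ha]; decide) k hk
    · rw [update_of_ne hia] at hi; exact h.mono i hi k hk
  just := fun x hx k hk hk' => by
    have hxP : lab x ≠ Lab.P := by
      by_cases hxa : x = a
      · subst hxa; rw [ha]; decide
      · rwa [update_of_ne hxa] at hx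
    have hxR : k = κ x → lab x = Lab.R := by
      intro h'
      have := hk' h'
      by_cases hxa : x = a
      · subst hxa; simp at this
      · rwa [update_of_ne hxa] at this
    obtain ⟨j, l, h1, h2, h3, h4, h5, h6⟩ := h.just x hxP k hk hxR
    by_cases hja : j = a
    · subst hja
      by_cases hl : l = κ j
      · subst hl
        have hbx : b ≠ x := by
          rintro rfl
          have hbF : lab b = Lab.F := by
            rcases hb with hb | hb
            · exact hb
            · exact absurd hb hxP
          have hkb : k ≠ κ b := by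
            intro h'
            have := hxR h'
            rw [hbF] at this; exact absurd this (by decide)
          have := h.le_of_le b k (by omega)
          exact absurd (lt_of_lt_of_le h5 (hle.trans this)) (lt_irrefl _)
        refine ⟨b, κ b, hbx, le_rfl, fun _ => ?_, by rw [← hch, h4], lt_of_lt_of_le h5 hle, ?_⟩
        · rw [update_of_ne (Ne.symm hab)]
          rcases hb with hb | hb <;> rw [hb] <;> decide
        · rw [h.past b (κ b) le_rfl]; exact h.pos_succ x k hk
      · exact ⟨j, l, h1, h2, fun h' => absurd h' hl, h4, h5, h6⟩
    · exact ⟨j, l, h1, h2, fun h' => by rw [update_of_ne hja]; exact h3 h', h4, h5, h6⟩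

/-- The forward lemma: a free player moves at once. -/
theorem fwd (h : Plan χ κ lab E) {i : ι} (hi : lab i = Lab.A) :
    Plan χ (update κ i (κ i + 1)) (update lab i Lab.R)
      (update E i (update (E i) (κ i + 1) 0)) where
  past := fun a k hk => by
    by_cases ha : a = i
    · subst ha
      rw [update_self] at hk ⊢
      by_cases hk1 : k = κ a + 1
      · rw [hk1, update_self]
      · rw [update_of_ne hk1]; exact h.past a k (by omega)
    · rw [update_of_ne ha] at hk ⊢; exact h.past a k hk
  perm := fun a ha k hk => by
    have hai : a ≠ i := by rintro rfl; simp at ha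
    rw [update_of_ne hai] at ha hk ⊢
    exact h.perm a ha k hk
  mono := fun a ha k hk => by
    by_cases hai : a = i
    · subst hai
      rw [update_self] at hk ⊢
      have hP : lab a ≠ Lab.P := by rw [hi]; decide
      rw [update_of_ne (show k + 1 ≠ κ a + 1 by omega)]
      by_cases hk1 : k = κ a + 1
      · rw [hk1, update_self]
        exact h.pos_succ a (κ a + 1) (by omega)
      · rw [update_of_ne hk1]; exact h.mono a hP k (by omega)
    · rw [update_of_ne hai] at ha hk ⊢; exact h.mono a ha k hk
  just := fun a ha k hk hk' => by
    by_cases hai : a = i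
    · subst hai
      rw [update_self] at hk
      have hP : lab a ≠ Lab.P := by rw [hi]; decide
      obtain ⟨j, l, h1, h2, h3, h4, h5, h6⟩ := h.just a hP k (by omega) (fun h' => by omega)
      refine ⟨j, l, h1, ?_, ?_, h4, ?_, ?_⟩
      · rw [update_of_ne h1]; exact h2
      · rw [update_of_ne h1, update_of_ne h1]; exact h3
      · rw [update_of_ne h1, update_self]
        refine lt_of_le_of_lt ?_ h5
        by_cases hk1 : k = κ a + 1
        · rw [hk1, update_self]; exact zero_le
        · rw [update_of_ne hk1]
      · rw [update_of_ne h1, update_self, update_of_ne (show k + 1 ≠ κ a + 1 by omega)]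
        exact h6
    · rw [update_of_ne hai] at ha hk hk'
      rw [update_of_ne hai] at hk'
      obtain ⟨j, l, h1, h2, h3, h4, h5, h6⟩ := h.just a ha k hk hk'
      by_cases hji : j = i
      · subst hji
        have hl : l ≠ κ j := fun h' => h3 h' hi
        refine ⟨j, l, h1, ?_, ?_, h4, ?_, ?_⟩
        · rw [update_self]; omega
        · intro _; rw [update_self]; decide
        · rw [update_of_ne hai, update_self, update_of_ne (show l + 1 ≠ κ j + 1 by omega)]
          exact h5
        · rw [update_of_ne hai, update_self]
          by_cases hl1 : l = κ j + 1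
          · rw [hl1, update_self]; exact h.pos_succ a k hk
          · rw [update_of_ne hl1]; exact h6
      · refine ⟨j, l, h1, ?_, ?_, h4, ?_, ?_⟩
        · rw [update_of_ne hji]; exact h2
        · rw [update_of_ne hji, update_of_ne hji]; exact h3
        · rw [update_of_ne hai, update_of_ne hji]; exact h5
        · rw [update_of_ne hai, update_of_ne hji]; exact h6

/-- The backward lemma. -/
theorem back {i : ι} (h : Plan χ (update κ i (κ i + 1)) lab1 E) (hi : lab2 i = Lab.A)
    (hP : ∀ a, lab2 a = Lab.P ↔ lab1 a = Lab.P)
    (hA : ∀ a, a ≠ i → lab1 a ≠ Lab.A → lab2 a ≠ Lab.A)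
    (hR : ∀ a, lab2 a = Lab.R → lab1 a = Lab.R ∨ χ a (κ a) = χ i (κ i + 1))
    (hj : lab1 i = Lab.R ∨ ∃ b l, b ≠ i ∧ κ b ≤ l ∧ (l = κ b → lab2 b ≠ Lab.A) ∧
      χ b l = χ i (κ i + 1) ∧ E b l < E i (κ i + 2)) : Inv χ κ lab2 := by
  classical
  set E2 : ι → ℕ → ℕ∞ := fun a k => if k ≤ κ a then 0 else if a = i ∧ k = κ i + 1 then 1
    else E a k + 1 with hE2
  have hiP : lab1 i ≠ Lab.P := by
    intro h'; have := (hP i).2 h'; rw [hi] at this; exact absurd this (by decide)
  have e0 : ∀ a k, k ≤ κ a → E2 a k = 0 := fun a k hk => by simp [hE2, hk]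
  have e1 : E2 i (κ i + 1) = 1 := by simp [hE2]
  have e2 : ∀ a k, update κ i (κ i + 1) a < k → E2 a k = E a k + 1 := by
    intro a k hk
    by_cases hai : a = i
    · subst hai
      rw [update_self] at hk
      simp only [hE2]
      rw [if_neg (by omega), if_neg (by rintro ⟨_, h'⟩; omega)]
    · rw [update_of_ne hai] at hk
      simp only [hE2]
      rw [if_neg (by omega), if_neg (by rintro ⟨h', _⟩; exact hai h')]
  have e3 : ∀ a k, E2 a k ≤ E a k + 1 := by
    intro a k
    simp only [hE2]
    split_ifs
    · exact zero_le
    · exact le_add_self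
    · exact le_rfl
  -- comparison of an arrival with a departure
  have key : ∀ a k b l, update κ i (κ i + 1) b ≤ l → E a k < E b (l + 1) →
      E2 a k < E2 b (l + 1) := by
    intro a k b l hl hlt
    rw [e2 b (l + 1) (by omega)]
    refine lt_of_le_of_lt (e3 a k) ?_
    exact (ENat.add_lt_add_iff_right ENat.one_ne_top).2 hlt
  have one_lt : ∀ a k, update κ i (κ i + 1) a ≤ k → 1 < E2 a (k + 1) := by
    intro a k hk
    rw [e2 a (k + 1) (by omega)]
    have := h.pos_succ a k hk
    calc (1 : ℕ∞) = 0 + 1 := by simp
      _ < E a (k + 1) + 1 := (ENat.add_lt_add_iff_right ENat.one_ne_top).2 this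
  have ule : ∀ a, κ a ≤ update κ i (κ i + 1) a := by
    intro a
    by_cases hai : a = i
    · subst hai; rw [update_self]; omega
    · rw [update_of_ne hai]
  refine ⟨E2, ⟨fun a k hk => e0 a k hk, ?_, ?_, ?_⟩⟩
  · -- permanent players
    intro a ha k hk
    have ha1 := (hP a).1 ha
    have hai : a ≠ i := by rintro rfl; exact hiP ha1
    have hk' : update κ i (κ i + 1) a < k := by rw [update_of_ne hai]; exact hk
    rw [e2 a k hk', h.perm a ha1 k hk']; rfl
  · -- monotone
    intro a ha k hk
    have ha1 : lab1 a ≠ Lab.P := fun h' => ha ((hP a).2 h')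
    by_cases hk' : update κ i (κ i + 1) a ≤ k
    · exact key a k a k hk' (h.mono a ha1 k hk')
    · -- only `a = i`, `k = κ i`
      have hai : a = i := by
        by_contra hai
        rw [update_of_ne hai] at hk'
        exact hk' hk
      subst hai
      rw [update_self] at hk'
      have hk1 : k = κ a := by omega
      subst hk1
      rw [e0 a _ le_rfl, e1]; exact one_pos
  · -- justification
    intro a ha k hk hk'
    have ha1 : lab1 a ≠ Lab.P := fun h' => ha ((hP a).2 h')
    by_cases haik : a = i ∧ k = κ i + 1
    · obtain ⟨rfl, rfl⟩ := haik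
      rcases hj with hj | ⟨b, l, hb1, hb2, hb3, hb4, hb5⟩
      · obtain ⟨j, l, h1, h2, h3, h4, h5, h6⟩ := h.just a ha1 (κ a + 1)
          (by rw [update_self]) (fun _ => hj)
        rw [update_of_ne h1] at h2
        refine ⟨j, l, h1, h2, ?_, h4, ?_, ?_⟩
        · intro h'; exact hA j h1 (h3 (by rw [update_of_ne h1]; exact h'))
        · exact key a (κ a + 1) j l (by rw [update_of_ne h1]; exact h2) h5
        · exact key j l a (κ a + 1) (by rw [update_self]) h6
      · refine ⟨b, l, hb1, hb2, hb3, hb4, ?_, ?_⟩
        · rw [e1]; exact one_lt b l (by rw [update_of_ne hb1]; exact hb2)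
        · exact key b l a (κ a + 1) (by rw [update_self]) hb5
    · by_cases hk2 : update κ i (κ i + 1) a ≤ k
      · by_cases hneed : k = update κ i (κ i + 1) a → lab1 a = Lab.R
        · obtain ⟨j, l, h1, h2, h3, h4, h5, h6⟩ := h.just a ha1 k hk2 hneed
          refine ⟨j, l, h1, (ule j).trans h2, ?_, h4, key a k j l h2 h5, key j l a k hk2 h6⟩
          intro h'
          by_cases hji : j = i
          · subst hji
            rw [update_self] at h2; omega
          · exact hA j hji (h3 (by rw [update_of_ne hji]; exact h'))
        · -- current visit of `a` that is not resting in `lab1`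
          push Not at hneed
          obtain ⟨hk3, hnR⟩ := hneed
          have hai : a ≠ i := by
            rintro rfl
            exact haik ⟨rfl, by rw [hk3, update_self]⟩
          rw [update_of_ne hai] at hk3
          have haR := hk' hk3
          rcases hR a haR with h' | h'
          · exact absurd h' hnR
          · refine ⟨i, κ i + 1, Ne.symm hai, by omega, fun h'' => by omega, ?_, ?_, ?_⟩
            · rw [hk3]; exact h'.symm
            · rw [hk3, e0 a _ le_rfl]
              exact lt_of_le_of_lt (zero_le) (one_lt i (κ i + 1) (by rw [update_self]))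
            · rw [e1]; exact one_lt a k hk2
      · -- `a = i`, `k = κ i`: free, needs nothing
        have hai : a = i := by
          by_contra hai
          rw [update_of_ne hai] at hk2
          exact hk2 hk
        subst hai
        rw [update_self] at hk2
        have hk1 : k = κ a := by omega
        have := hk' hk1
        rw [hi] at this; exact absurd this (by decide)

end Plan

/-- Being frozen for good reason is backward stable. -/
theorem Good.keepMax (hg : Good χ κ lab) {i w : ι} (hi : lab i = Lab.A) (hwi : w ≠ i)
    (hw : lab w ≠ Lab.A) (hch : χ w (κ w) = χ i (κ i + 1))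
    (h1 : ∀ a, a ≠ i → a ≠ w → lab' a = lab a) (h2 : lab' i ≠ Lab.P)
    (h3 : lab' w = Lab.P ↔ lab w = Lab.P) {w2 : ι} (hw2i : w2 ≠ i) (hw2 : w2 ≠ w)
    (hF : lab w2 = Lab.F) : ¬ Inv χ (update κ i (κ i + 1)) (update lab' w2 Lab.A) := by
  rintro ⟨E, hE⟩
  apply hg.max w2 hF
  have hiw2 : i ≠ w2 := Ne.symm hw2i
  have hww2 : w ≠ w2 := Ne.symm hw2
  refine hE.back (lab2 := update lab w2 Lab.A) ?_ ?_ ?_ ?_ (Or.inr ⟨w, κ w, hwi, le_rfl, ?_, hch, ?_⟩)
  · rw [update_of_ne hiw2, hi]
  · intro a
    by_cases haw2 : a = w2
    · subst haw2; simp
    · rw [update_of_ne haw2, update_of_ne haw2]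
      by_cases hai : a = i
      · subst hai; rw [hi]; constructor
        · intro h'; exact absurd h' (by decide)
        · intro h'; exact absurd h' h2
      · by_cases haw : a = w
        · subst haw; exact h3.symm
        · rw [h1 a hai haw]
  · intro a hai ha
    by_cases haw2 : a = w2
    · subst haw2; simp at ha
    · rw [update_of_ne haw2] at ha ⊢
      by_cases haw : a = w
      · subst haw; exact hw
      · rwa [h1 a hai haw] at ha
  · intro a ha
    by_cases haw2 : a = w2
    · subst haw2; simp at ha
    · rw [update_of_ne haw2] at ha ⊢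
      by_cases hai : a = i
      · subst hai; rw [hi] at ha; exact absurd ha (by decide)
      · by_cases haw : a = w
        · subst haw; exact Or.inr hch
        · left; rw [h1 a hai haw]; exact ha
  · intro _; rw [update_of_ne hww2]; exact hw
  · rw [hE.past w (κ w) (by rw [update_of_ne hwi])]
    exact hE.pos_succ i (κ i + 1) (by rw [update_self])

/-- Distinct chairs after a step in which the mover stays free. -/
theorem Good.distA (hg : Good χ κ lab) {i : ι} (h0 : lab' i = Lab.A)
    (h1 : ∀ a, a ≠ i → (lab' a = Lab.R ∨ lab' a = Lab.F) → (lab a = Lab.R ∨ lab a = Lab.F))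
    (h2 : ∀ a, a ≠ i → lab' a ≠ Lab.A → lab a ≠ Lab.A) (a b : ι) (hab : a ≠ b)
    (ha : lab' a = Lab.R ∨ lab' a = Lab.F) (hb : lab' b ≠ Lab.A) :
    χ a (update κ i (κ i + 1) a) ≠ χ b (update κ i (κ i + 1) b) := by
  have hai : a ≠ i := by
    rintro rfl; rw [h0] at ha; rcases ha with ha | ha <;> exact absurd ha (by decide)
  have hbi : b ≠ i := by rintro rfl; exact hb h0
  rw [update_of_ne hai, update_of_ne hbi]
  exact hg.dist a b hab (h1 a hai ha) (h2 b hbi hb)

/-- The plan right after the move of `i` onto the chair of `w`, both present. -/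
theorem Good.afterHit (hg : Good χ κ lab) {i w : ι} (hi : lab i = Lab.A) (hwi : w ≠ i)
    (hw : lab w = Lab.R ∨ lab w = Lab.F) :
    ∃ E, Plan χ (update κ i (κ i + 1)) (update (update lab w Lab.F) i Lab.F) E := by
  obtain ⟨E, hE⟩ := hg.inv
  refine ⟨_, (hE.fwd hi).relabel (lab' := update (update lab w Lab.F) i Lab.F) ?_ ?_ ?_⟩
  · intro a
    by_cases hai : a = i
    · subst hai; simp
    · rw [update_of_ne hai, update_of_ne hai]
      by_cases haw : a = w
      · subst haw; rw [update_self]; rcases hw with hw | hw <;> rw [hw] <;> simp
      · rw [update_of_ne haw]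
  · intro a
    by_cases hai : a = i
    · subst hai; simp
    · rw [update_of_ne hai, update_of_ne hai]
      by_cases haw : a = w
      · subst haw; rw [update_self]; simp
      · rw [update_of_ne haw]; exact id
  · intro a
    by_cases hai : a = i
    · subst hai; simp
    · rw [update_of_ne hai, update_of_ne hai]
      by_cases haw : a = w
      · subst haw; rw [update_self]; simp
      · rw [update_of_ne haw]; exact id

theorem ne_of_lab {a b : ι} (h : lab a ≠ lab b) : a ≠ b := fun h' => h (by rw [h'])

/-- Step, empty chair. -/
theorem Good.stepE (hg : Good χ κ lab) {i : ι} (hi : lab i = Lab.A)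
    (hemp : ∀ w, lab w ≠ Lab.A → χ w (κ w) ≠ χ i (κ i + 1)) :
    Good χ (update κ i (κ i + 1)) (update lab i Lab.R) := by
  refine ⟨?_, ?_, ?_⟩
  · obtain ⟨E, hE⟩ := hg.inv; exact ⟨_, hE.fwd hi⟩
  · intro w2 hw2
    have hw2i : w2 ≠ i := by rintro rfl; simp at hw2
    have hiw2 : i ≠ w2 := Ne.symm hw2i
    rw [update_of_ne hw2i] at hw2
    rintro ⟨E, hE⟩
    apply hg.max w2 hw2
    refine hE.back (lab2 := update lab w2 Lab.A) ?_ ?_ ?_ ?_ (Or.inl ?_)
    · rw [update_of_ne hiw2, hi]
    · intro a
      by_cases haw2 : a = w2
      · subst haw2; simp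
      · rw [update_of_ne haw2, update_of_ne haw2]
        by_cases hai : a = i
        · subst hai; rw [hi]; simp
        · rw [update_of_ne hai]
    · intro a hai ha
      by_cases haw2 : a = w2
      · subst haw2; simp at ha
      · rw [update_of_ne haw2] at ha ⊢; rwa [update_of_ne hai] at ha
    · intro a ha
      by_cases haw2 : a = w2
      · subst haw2; simp at ha
      · rw [update_of_ne haw2] at ha ⊢
        by_cases hai : a = i
        · subst hai; left; simp
        · left; rw [update_of_ne hai]; exact ha
    · rw [update_of_ne hiw2, update_self]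
  · intro a b hab ha hb
    by_cases hai : a = i
    · subst hai
      have hba : b ≠ a := Ne.symm hab
      rw [update_of_ne hba] at hb ⊢
      rw [update_self]
      exact (hemp b hb).symm
    · rw [update_of_ne hai] at ha ⊢
      have haA : lab a ≠ Lab.A := by rcases ha with ha | ha <;> rw [ha] <;> decide
      by_cases hbi : b = i
      · subst hbi; rw [update_self]; exact hemp a haA
      · rw [update_of_ne hbi] at hb ⊢; exact hg.dist a b hab ha hb

/-- Step, chair of a permanent player. -/
theorem Good.stepP (hg : Good χ κ lab) {i w : ι} (hi : lab i = Lab.A) (hw : lab w = Lab.P)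
    (hch : χ w (κ w) = χ i (κ i + 1)) : Good χ (update κ i (κ i + 1)) lab := by
  have hwi : w ≠ i := ne_of_lab (lab := lab) (by rw [hi, hw]; decide)
  have hwA : lab w ≠ Lab.A := by rw [hw]; decide
  refine ⟨?_, ?_, hg.distA hi (fun _ _ => id) (fun _ _ => id)⟩
  · obtain ⟨E, hE⟩ := hg.inv
    have h1 := (hE.fwd hi).relabel (lab' := update lab i Lab.F) (by
      intro a; by_cases hai : a = i
      · subst hai; simp
      · simp [update_of_ne hai]) (by
      intro a; by_cases hai : a = i
      · subst hai; simp
      · simp [update_of_ne hai]) (by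
      intro a; by_cases hai : a = i
      · subst hai; simp
      · simp [update_of_ne hai])
    have h2 := h1.takeover (a := i) (b := w) (Ne.symm hwi) (by simp)
      (Or.inr (by rw [update_of_ne hwi, hw])) (by rw [update_self, update_of_ne hwi]; exact hch.symm)
      (by
        rw [h1.perm w (by rw [update_of_ne hwi, hw]) _ (Nat.lt_succ_self _)]; exact le_top)
    rw [update_idem] at h2
    have : update lab i Lab.A = lab := by rw [← hi, update_eq_self]
    rw [this] at h2
    exact ⟨_, h2⟩
  · intro w2 hw2
    exact hg.keepMax hi hwi hwA hch (fun _ _ _ => rfl) (by rw [hi]; decide) Iff.rfl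
      (ne_of_lab (lab := lab) (by rw [hi, hw2]; decide)) (ne_of_lab (lab := lab) (by rw [hw, hw2]; decide)) hw2

/-- Step, chair of a frozen player. -/
theorem Good.stepF (hg : Good χ κ lab) {i w : ι} (hi : lab i = Lab.A) (hw : lab w = Lab.F)
    (hch : χ w (κ w) = χ i (κ i + 1)) :
      Good χ (update κ i (κ i + 1)) (update lab w Lab.A) ∨
      Good χ (update κ i (κ i + 1)) lab := by
  have hwi : w ≠ i := ne_of_lab (lab := lab) (by rw [hi, hw]; decide)
  have hiw : i ≠ w := Ne.symm hwi
  have hwA : lab w ≠ Lab.A := by rw [hw]; decide
  have hupd : update lab i Lab.A = lab := by rw [← hi, update_eq_self]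
  by_cases hBB : Inv χ (update κ i (κ i + 1)) (update lab w Lab.A)
  · left
    refine ⟨hBB, ?_, hg.distA (by rw [update_of_ne hiw, hi]) ?_ ?_⟩
    · intro w2 hw2
      have hw2w : w2 ≠ w := by rintro rfl; simp at hw2
      rw [update_of_ne hw2w] at hw2
      exact hg.keepMax hi hwi hwA hch (fun a _ haw => by rw [update_of_ne haw])
        (by rw [update_of_ne hiw, hi]; decide) (by rw [update_self, hw]; simp)
        (ne_of_lab (lab := lab) (by rw [hi, hw2]; decide)) hw2w hw2
    · intro a hai ha
      have haw : a ≠ w := by rintro rfl; simp at ha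
      rwa [update_of_ne haw] at ha
    · intro a hai ha
      have haw : a ≠ w := by rintro rfl; simp at ha
      rwa [update_of_ne haw] at ha
  · right
    refine ⟨?_, ?_, hg.distA hi (fun _ _ => id) (fun _ _ => id)⟩
    · obtain ⟨E, hE⟩ := hg.afterHit hi hwi (Or.inr hw)
      have hlabw : update lab w Lab.F = lab := by rw [← hw, update_eq_self]
      rw [hlabw] at hE
      rcases le_total (E i (κ i + 2)) (E w (κ w + 1)) with hle | hle
      · -- `i` leaves first
        have h2 := hE.takeover (a := i) (b := w) hiw (by rw [update_self])
          (Or.inl (by rw [update_of_ne hwi, hw]))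
          (by rw [update_self, update_of_ne hwi]; exact hch.symm)
          (by rw [update_self, update_of_ne hwi]; exact hle)
        rw [update_idem, hupd] at h2
        exact ⟨_, h2⟩
      · -- `w` leaves first
        exfalso
        have h2 := hE.takeover (a := w) (b := i) hwi (by rw [update_of_ne hwi, hw])
          (Or.inl (by rw [update_self]))
          (by rw [update_self, update_of_ne hwi]; exact hch)
          (by rw [update_self, update_of_ne hwi]; exact hle)
        -- is somebody relying on `i`?
        by_cases hrel : ∃ a k, a ≠ i ∧ lab a ≠ Lab.P ∧ κ a ≤ k ∧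
            (k = κ a → update lab w Lab.A a ≠ Lab.A) ∧ χ a k = χ i (κ i + 1) ∧
            E a k < E i (κ i + 2)
        · obtain ⟨a, k, ha1, ha2, ha3, ha4, ha5, ha6⟩ := hrel
          apply hg.max w hw
          refine h2.back (lab2 := update lab w Lab.A) (by rw [update_of_ne hiw, hi]) ?_ ?_ ?_
            (Or.inr ⟨a, k, ha1, ha3, ha4, ha5, ha6⟩)
          · intro b
            by_cases hbw : b = w
            · subst hbw; simp
            · rw [update_of_ne hbw, update_of_ne hbw]
              by_cases hbi : b = i
              · subst hbi; rw [hi, update_self]; simp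
              · rw [update_of_ne hbi]
          · intro b hbi hb
            by_cases hbw : b = w
            · subst hbw; simp at hb
            · rw [update_of_ne hbw] at hb ⊢
              rwa [update_of_ne hbi] at hb
          · intro b hb
            by_cases hbw : b = w
            · subst hbw; simp at hb
            · rw [update_of_ne hbw] at hb ⊢
              left
              by_cases hbi : b = i
              · subst hbi; rw [hi] at hb; exact absurd hb (by decide)
              · rw [update_of_ne hbi]; exact hb
        · -- nobody relies on `i`: both can be freed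
          apply hBB
          refine ⟨E, h2.past, ?_, ?_, ?_⟩
          · intro b hb k hk
            have hbw : b ≠ w := by rintro rfl; simp at hb
            have hb' := hb
            rw [update_of_ne hbw] at hb'
            have hbi : b ≠ i := by rintro rfl; rw [hi] at hb'; exact absurd hb' (by decide)
            exact h2.perm b (by rw [update_of_ne hbw, update_of_ne hbi, hb']) k hk
          · intro b hb k hk
            refine h2.mono b ?_ k hk
            by_cases hbw : b = w
            · subst hbw; simp
            · rw [update_of_ne hbw]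
              rw [update_of_ne hbw] at hb
              by_cases hbi : b = i
              · subst hbi; simp
              · rwa [update_of_ne hbi]
          · intro b hb k hk hk'
            have hbP : lab b ≠ Lab.P := by
              by_cases hbw : b = w
              · subst hbw; rw [hw]; decide
              · rwa [update_of_ne hbw] at hb
            obtain ⟨j, l, h3, h4, h5, h6, h7, h8⟩ := h2.just b (by
              by_cases hbw : b = w
              · subst hbw; simp
              · rw [update_of_ne hbw]
                by_cases hbi : b = i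
                · subst hbi; simp
                · rwa [update_of_ne hbi]) k hk (fun h' => by
              have := hk' h'
              have hbw : b ≠ w := by rintro rfl; simp at this
              rw [update_of_ne hbw] at this ⊢
              have hbi : b ≠ i := by rintro rfl; rw [hi] at this; exact absurd this (by decide)
              rwa [update_of_ne hbi])
            refine ⟨j, l, h3, h4, ?_, h6, h7, h8⟩
            intro hl
            by_cases hji : j = i
            · exfalso
              subst hji
              rw [update_self] at hl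
              subst hl
              have hbj : b ≠ j := Ne.symm h3
              rw [update_of_ne hbj] at hk hk'
              exact hrel ⟨b, k, hbj, hbP, hk, fun h' => by rw [hk' h']; decide, h6.symm, h7⟩
            · have := h5 hl
              by_cases hjw : j = w
              · subst hjw; simp at this
              · rw [update_of_ne hjw] at this ⊢
                rwa [update_of_ne hji] at this
    · intro w2 hw2
      by_cases hw2w : w2 = w
      · subst hw2w; exact hBB
      · exact hg.keepMax hi hwi hwA hch (fun _ _ _ => rfl) (by rw [hi]; decide) Iff.rfl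
          (ne_of_lab (lab := lab) (by rw [hi, hw2]; decide)) hw2w hw2

/-- Step, chair of a resting player. -/
theorem Good.stepR (hg : Good χ κ lab) {i w : ι} (hi : lab i = Lab.A) (hw : lab w = Lab.R)
    (hch : χ w (κ w) = χ i (κ i + 1)) :
      Good χ (update κ i (κ i + 1)) (update lab w Lab.A) ∨
      Good χ (update κ i (κ i + 1)) (update lab w Lab.F) ∨
      Good χ (update κ i (κ i + 1)) (update (update lab w Lab.A) i Lab.F) := by
  have hwi : w ≠ i := ne_of_lab (lab := lab) (by rw [hi, hw]; decide)
  have hiw : i ≠ w := Ne.symm hwi
  have hwA : lab w ≠ Lab.A := by rw [hw]; decide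
  by_cases hBB : Inv χ (update κ i (κ i + 1)) (update lab w Lab.A)
  · left
    refine ⟨hBB, ?_, hg.distA (by rw [update_of_ne hiw, hi]) ?_ ?_⟩
    · intro w2 hw2
      have hw2w : w2 ≠ w := by rintro rfl; simp at hw2
      rw [update_of_ne hw2w] at hw2
      exact hg.keepMax hi hwi hwA hch (fun a _ haw => by rw [update_of_ne haw])
        (by rw [update_of_ne hiw, hi]; decide) (by rw [update_self, hw]; simp)
        (ne_of_lab (lab := lab) (by rw [hi, hw2]; decide)) hw2w hw2
    · intro a hai ha
      have haw : a ≠ w := by rintro rfl; simp at ha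
      rwa [update_of_ne haw] at ha
    · intro a hai ha
      have haw : a ≠ w := by rintro rfl; simp at ha
      rwa [update_of_ne haw] at ha
  · right
    obtain ⟨E, hE⟩ := hg.afterHit hi hwi (Or.inl hw)
    rcases le_total (E i (κ i + 2)) (E w (κ w + 1)) with hle | hle
    · -- `i` leaves first: `w` frozen
      left
      have h2 := hE.takeover (a := i) (b := w) hiw (by rw [update_self])
        (Or.inl (by rw [update_of_ne hwi, update_self]))
        (by rw [update_self, update_of_ne hwi]; exact hch.symm)
        (by rw [update_self, update_of_ne hwi]; exact hle)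
      have hupd : update (update (update lab w Lab.F) i Lab.F) i Lab.A = update lab w Lab.F := by
        rw [update_idem]
        have : update lab w Lab.F i = Lab.A := by rw [update_of_ne hiw, hi]
        rw [← this, update_eq_self]
      rw [hupd] at h2
      refine ⟨⟨_, h2⟩, ?_, hg.distA (by rw [update_of_ne hiw, hi]) ?_ ?_⟩
      · intro w2 hw2
        by_cases hw2w : w2 = w
        · subst hw2w; rw [update_idem]; exact hBB
        · rw [update_of_ne hw2w] at hw2
          exact hg.keepMax hi hwi hwA hch (fun a _ haw => by rw [update_of_ne haw])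
            (by rw [update_of_ne hiw, hi]; decide) (by rw [update_self, hw]; simp)
            (ne_of_lab (lab := lab) (by rw [hi, hw2]; decide)) hw2w hw2
      · intro a hai ha
        by_cases haw : a = w
        · subst haw; exact Or.inl hw
        · rwa [update_of_ne haw] at ha
      · intro a hai ha
        by_cases haw : a = w
        · subst haw; exact hwA
        · rwa [update_of_ne haw] at ha
    · -- `w` leaves first: `i` frozen
      right
      have h2 := hE.takeover (a := w) (b := i) hwi (by rw [update_of_ne hwi, update_self])
        (Or.inl (by rw [update_self]))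
        (by rw [update_self, update_of_ne hwi]; exact hch)
        (by rw [update_self, update_of_ne hwi]; exact hle)
      have hupd : update (update (update lab w Lab.F) i Lab.F) w Lab.A =
          update (update lab w Lab.A) i Lab.F := by
        rw [update_comm hwi, update_idem, update_comm hiw]
      rw [hupd] at h2
      refine ⟨⟨_, h2⟩, ?_, ?_⟩
      · intro w2 hw2
        by_cases hw2i : w2 = i
        · subst hw2i
          rw [update_idem]
          have : update (update lab w Lab.A) w2 Lab.A = update lab w Lab.A := by
            conv_lhs => rw [show Lab.A = update lab w Lab.A w2 by rw [update_of_ne hiw, hi]]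
            rw [show update lab w (update lab w Lab.A w2) = update lab w Lab.A by
              rw [update_of_ne hiw, hi]]
            exact update_eq_self _ _
          rw [this]; exact hBB
        · rw [update_of_ne hw2i] at hw2
          have hw2w : w2 ≠ w := by rintro rfl; simp at hw2
          rw [update_of_ne hw2w] at hw2
          exact hg.keepMax hi hwi hwA hch
            (fun a hai haw => by rw [update_of_ne hai, update_of_ne haw])
            (by rw [update_self]; decide) (by rw [update_of_ne hwi, update_self, hw]; simp)
            hw2i hw2w hw2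
      · intro a b hab ha hb
        by_cases hai : a = i
        · subst hai
          have hba : b ≠ a := Ne.symm hab
          rw [update_of_ne hba] at hb ⊢
          have hbw : b ≠ w := by rintro rfl; simp at hb
          rw [update_of_ne hbw] at hb
          rw [update_self, ← hch]
          exact hg.dist w b (Ne.symm hbw) (Or.inl hw) hb
        · rw [update_of_ne hai] at ha ⊢
          have haw : a ≠ w := by rintro rfl; simp at ha
          rw [update_of_ne haw] at ha
          have haA : lab a ≠ Lab.A := by rcases ha with ha | ha <;> rw [ha] <;> decide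
          by_cases hbi : b = i
          · subst hbi
            rw [update_self, ← hch]
            exact (hg.dist w a (Ne.symm haw) (Or.inl hw) haA).symm
          · rw [update_of_ne hbi] at hb ⊢
            have hbw : b ≠ w := by rintro rfl; simp at hb
            rw [update_of_ne hbw] at hb
            exact hg.dist a b hab ha hb

/-- There is always a free player. -/
theorem Good.exists_free [Finite ι] (hg : Good χ κ lab) (h : ∃ i, lab i ≠ Lab.P) :
    ∃ i, lab i = Lab.A := by
  by_contra hno
  push Not at hno
  obtain ⟨E, hE⟩ := hg.inv
  obtain ⟨i0, hi0⟩ := h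
  obtain ⟨j, hj, hmin⟩ := Set.exists_min_image {i | lab i ≠ Lab.P} (fun i => E i (κ i + 1))
    (Set.toFinite _) ⟨i0, hi0⟩
  have hmin' : ∀ a k, κ a < k → E j (κ j + 1) ≤ E a k := by
    intro a k hk
    by_cases hp : lab a = Lab.P
    · rw [hE.perm a hp k hk]; exact le_top
    · exact (hmin a hp).trans (hE.le_of_le a k (by omega))
  have hjRF : lab j = Lab.R ∨ lab j = Lab.F := by
    have h1 := hno j
    have h2 : lab j ≠ Lab.P := hj
    cases hl : lab j with
    | P => exact absurd hl h2
    | R => exact Or.inl rfl
    | F => exact Or.inr rfl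
    | A => exact absurd hl h1
  rcases hjRF with hR | hF
  · obtain ⟨b, l, h1, h2, h3, h4, h5, h6⟩ := hE.just j hj (κ j) le_rfl (fun _ => hR)
    rcases h2.lt_or_eq with hlt | heq
    · exact absurd (lt_of_lt_of_le h6 (hmin' b l hlt)) (lt_irrefl _)
    · subst heq
      exact hg.dist j b (Ne.symm h1) (Or.inl hR) (hno b) h4.symm
  · apply hg.max j hF
    refine ⟨E, hE.past, ?_, ?_, ?_⟩
    · intro a ha k hk
      have haj : a ≠ j := by rintro rfl; simp at ha
      rw [update_of_ne haj] at ha; exact hE.perm a ha k hk
    · intro a ha k hk
      by_cases haj : a = j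
      · subst haj; exact hE.mono a hj k hk
      · rw [update_of_ne haj] at ha; exact hE.mono a ha k hk
    · intro a ha k hk hk'
      have haP : lab a ≠ Lab.P := by
        by_cases haj : a = j
        · subst haj; exact hj
        · rwa [update_of_ne haj] at ha
      have haR : k = κ a → lab a = Lab.R := by
        intro h'
        have := hk' h'
        have haj : a ≠ j := by rintro rfl; simp at this
        rwa [update_of_ne haj] at this
      obtain ⟨b, l, h1, h2, h3, h4, h5, h6⟩ := hE.just a haP k hk haR
      refine ⟨b, l, h1, h2, ?_, h4, h5, h6⟩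
      intro hl
      by_cases hbj : b = j
      · exfalso
        subst hbj
        subst hl
        rcases hk.lt_or_eq with hlt | heq
        · exact absurd (lt_of_lt_of_le h5 (hmin' a k hlt)) (lt_irrefl _)
        · subst heq
          exact hg.dist b a h1 (Or.inr hF) (hno a) h4
      · rw [update_of_ne hbj]; exact h3 hl

end Pool.H34.MC
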