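import Pool.Agent.H34.MC.Defs
import Pool.Agent.H34.MC.Plan

/-!
The musical chairs game, and the passage from an infinite play to a good labelled state.
-/

namespace Pool.H34.MC

open Function Filter

/-- The chair of the `k`-th visit of player `i` when it starts at position `s i`. -/
def chairs {n m L : ℕ} (w : Fin n → Fin L → Fin m) (s : Fin n → Fin L) (i : Fin n) (k : ℕ) :
    Fin m := w i (nxt^[k] (s i))

/-- From a plan in which everybody is frozen or permanent to a good state. -/
theorem exists_good_of_plan {n : ℕ} {α : Type} {χ : Fin n → ℕ → α} {κ : Fin n → ℕ}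
    {lab0 : Fin n → Lab} (h0 : ∀ i, lab0 i = Lab.F ∨ lab0 i = Lab.P) (hI : Inv χ κ lab0) :
    ∃ lab, (∀ i, lab i = Lab.P ↔ lab0 i = Lab.P) ∧ Good χ κ lab := by
  classical
  set S : Finset (Fin n → Lab) := Finset.univ.filter fun lab =>
    (∀ a, lab a = Lab.P ↔ lab0 a = Lab.P) ∧ (∀ a, lab a ≠ Lab.R) ∧ Inv χ κ lab with hS
  have hne : S.Nonempty := ⟨lab0, by
    rw [hS, Finset.mem_filter]
    refine ⟨Finset.mem_univ _, fun _ => Iff.rfl, fun a => ?_, hI⟩
    rcases h0 a with h | h <;> rw [h] <;> decide⟩
  obtain ⟨lab, hlab, hmax⟩ := S.exists_max_image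
    (fun lab => (Finset.univ.filter fun a => lab a = Lab.A).card) hne
  rw [hS, Finset.mem_filter] at hlab
  obtain ⟨-, hP, hR, hInv⟩ := hlab
  have hmx : ∀ w, lab w = Lab.F → ¬ Inv χ κ (update lab w Lab.A) := by
    intro w hw hin
    have hmem : update lab w Lab.A ∈ S := by
      rw [hS, Finset.mem_filter]
      refine ⟨Finset.mem_univ _, fun a => ?_, fun a => ?_, hin⟩
      · by_cases haw : a = w
        · subst haw
          rw [update_self, ← hP a, hw]; decide
        · rw [update_of_ne haw]; exact hP a
      · by_cases haw : a = w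
        · subst haw; rw [update_self]; decide
        · rw [update_of_ne haw]; exact hR a
    have := hmax _ hmem
    have hlt : (Finset.univ.filter fun a => lab a = Lab.A).card <
        (Finset.univ.filter fun a => update lab w Lab.A a = Lab.A).card := by
      apply Finset.card_lt_card
      rw [Finset.ssubset_iff_of_subset]
      · refine ⟨w, by simp, ?_⟩
        simp [hw]
      · intro a ha
        rw [Finset.mem_filter] at ha ⊢
        refine ⟨Finset.mem_univ _, ?_⟩
        by_cases haw : a = w
        · subst haw; simp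
        · rw [update_of_ne haw]; exact ha.2
    omega
  refine ⟨lab, hP, hInv, hmx, ?_⟩
  intro a b hab ha hb hch
  obtain ⟨E, hE⟩ := hInv
  have haF : lab a = Lab.F := by
    rcases ha with ha | ha
    · exact absurd ha (hR a)
    · exact ha
  have hbFP : lab b = Lab.F ∨ lab b = Lab.P := by
    have h1 := hR b
    cases hl : lab b with
    | P => exact Or.inr rfl
    | R => exact absurd hl h1
    | F => exact Or.inl rfl
    | A => exact absurd hl hb
  rcases le_total (E a (κ a + 1)) (E b (κ b + 1)) with hle | hle
  · exact hmx a haF ⟨E, hE.takeover hab haF hbFP hch hle⟩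
  · rcases hbFP with hbF | hbP
    · exact hmx b hbF ⟨E, hE.takeover (Ne.symm hab) hbF (Or.inl haF) hch.symm hle⟩
    · refine hmx a haF ⟨E, hE.takeover hab haF (Or.inr hbP) hch ?_⟩
      rw [hE.perm b hbP _ (Nat.lt_succ_self _)]; exact le_top

/-- An infinite play gives a good labelled state in which some player is not permanent. -/
theorem exists_good {n m L : ℕ} {w : Fin n → Fin L → Fin m} (h : InfinitePlay w) :
    ∃ (s : Fin n → Fin L) (lab : Fin n → Lab), Good (chairs w s) 0 lab ∧
      ∃ i, lab i ≠ Lab.P := by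
  classical
  obtain ⟨pos, mv, hpm⟩ := h
  -- players that move infinitely often
  set I : Fin n → Prop := fun i => {t | i ∈ mv t}.Infinite with hI
  have hev : ∀ i, ∃ N, ∀ t, N ≤ t → ¬ I i → i ∉ mv t := by
    intro i
    by_cases hi : I i
    · exact ⟨0, fun t _ h' => absurd hi h'⟩
    · rw [hI] at hi
      simp only [Set.not_infinite] at hi
      obtain ⟨N, hN⟩ := hi.bddAbove
      refine ⟨N + 1, fun t ht _ hmem => ?_⟩
      have := hN (show t ∈ {t | i ∈ mv t} from hmem)
      omega
  choose N hN using hev
  set N0 := Finset.univ.sup N with hN0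
  have hNle : ∀ i, N i ≤ N0 := fun i => Finset.le_sup (Finset.mem_univ i)
  set s : Fin n → Fin L := pos N0 with hs
  set p : Fin n → ℕ → Prop := fun i t => i ∈ mv (N0 + t) with hp
  have hnot : ∀ i t, ¬ I i → ¬ p i t := fun i t hi => hN i (N0 + t) (by have := hNle i; omega) hi
  have hinf : ∀ i, I i → {t | p i t}.Infinite := by
    intro i hi
    have hi' : {t | i ∈ mv t}.Infinite := hi
    rw [Set.infinite_iff_exists_gt] at hi' ⊢
    intro a
    obtain ⟨b, hb, hab⟩ := hi' (N0 + a)
    refine ⟨b - N0, ?_, by omega⟩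
    have : N0 + (b - N0) = b := by omega
    show i ∈ mv (N0 + (b - N0))
    rw [this]; exact hb
  have hposn : ∀ i t, pos (N0 + t) i = nxt^[Nat.count (p i) t] (s i) := by
    intro i t
    induction t with
    | zero => simp [hs]
    | succ t ih =>
      have h1 := (hpm (N0 + t)).2.2 i
      rw [show N0 + (t + 1) = N0 + t + 1 by ring, h1, Nat.count_succ]
      by_cases hmem : p i t
      · rw [if_pos hmem, if_pos hmem, iterate_succ_apply', ih]
      · rw [if_neg hmem, if_neg hmem, ih, add_zero]
  have hcnt0 : ∀ i t, ¬ I i → Nat.count (p i) t = 0 := by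
    intro i t hi
    rw [Nat.count_iff_forall_not]
    exact fun t' _ => hnot i t' hi
  set E : Fin n → ℕ → ℕ∞ := fun i k => if k = 0 then 0 else
    if I i then ((Nat.nth (p i) (k - 1) + 1 : ℕ) : ℕ∞) else ⊤ with hE
  set lab0 : Fin n → Lab := fun i => if I i then Lab.F else Lab.P with hlab0
  have hE0 : ∀ i, E i 0 = 0 := fun i => by simp [hE]
  have hES : ∀ i k, I i → E i (k + 1) = ((Nat.nth (p i) k + 1 : ℕ) : ℕ∞) := by
    intro i k hi; simp [hE, hi]
  have hET : ∀ i k, ¬ I i → E i (k + 1) = ⊤ := by
    intro i k hi; simp [hE, hi]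
  have hlabI : ∀ i, lab0 i ≠ Lab.P → I i := by
    intro i hi
    by_contra h'
    exact hi (by simp [hlab0, h'])
  have hplan : Plan (chairs w s) 0 lab0 E := by
    refine ⟨?_, ?_, ?_, ?_⟩
    · intro i k hk
      have : k = 0 := by simpa using hk
      subst this; exact hE0 i
    · intro i hi k hk
      have hnI : ¬ I i := by
        intro h'
        simp [hlab0, h'] at hi
      obtain ⟨k', rfl⟩ : ∃ k', k = k' + 1 := ⟨k - 1, by have : 0 < k := by simpa using hk
                                                        omega⟩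
      exact hET i k' hnI
    · intro i hi k _
      have hiI := hlabI i hi
      rw [hES i k hiI]
      rcases k with _ | k
      · rw [hE0]; exact_mod_cast Nat.succ_pos _
      · rw [hES i k hiI]
        have := Nat.nth_strictMono (hinf i hiI) (Nat.lt_succ_self k)
        exact_mod_cast Nat.succ_lt_succ this
    · intro i hi k _ hk'
      have hiI := hlabI i hi
      have hk0 : k ≠ 0 := by
        rintro rfl
        have := hk' (by simp)
        simp [hlab0, hiI] at this
      obtain ⟨k', rfl⟩ : ∃ k', k = k' + 1 := ⟨k - 1, by omega⟩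
      set t := Nat.nth (p i) (k' + 1) with ht
      have hpt : p i t := Nat.nth_mem_of_infinite (hinf i hiI) _
      have hci : Nat.count (p i) t = k' + 1 := Nat.count_nth_of_infinite (hinf i hiI) _
      obtain ⟨j, hj, hjc⟩ := (hpm (N0 + t)).2.1 i hpt
      rw [hposn j t, hposn i t, hci] at hjc
      refine ⟨j, Nat.count (p j) t, hj, by simp, ?_, hjc, ?_, ?_⟩
      · intro _
        by_cases hjI : I j <;> simp [hlab0, hjI]
      · rw [hES i k' hiI]
        have h1 : Nat.nth (p i) k' < t := Nat.nth_strictMono (hinf i hiI) (Nat.lt_succ_self k')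
        by_cases hjI : I j
        · rw [hES j _ hjI]
          have h2 : t ≤ Nat.nth (p j) (Nat.count (p j) t) := Nat.le_nth_count (hinf j hjI) t
          exact_mod_cast (by omega : Nat.nth (p i) k' + 1 < Nat.nth (p j) (Nat.count (p j) t) + 1)
        · rw [hET j _ hjI]; exact ENat.natCast_lt_top _
      · rw [hES i (k' + 1) hiI]
        by_cases hjI : I j
        · rcases hc : Nat.count (p j) t with _ | l
          · rw [hE0]; exact_mod_cast Nat.succ_pos _
          · rw [hES j l hjI]
            have h3 : Nat.nth (p j) l < t := Nat.nth_lt_of_lt_count (by omega)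
            exact_mod_cast (by omega : Nat.nth (p j) l + 1 < Nat.nth (p i) (k' + 1) + 1)
        · rw [hcnt0 j t hjI, hE0]; exact_mod_cast Nat.succ_pos _
  obtain ⟨lab, hlP, hgood⟩ := exists_good_of_plan (lab0 := lab0) (κ := 0) (χ := chairs w s)
    (fun i => by by_cases hi : I i <;> simp [hlab0, hi]) ⟨E, hplan⟩
  refine ⟨s, lab, hgood, ?_⟩
  obtain ⟨i, hi⟩ := (hpm N0).1
  refine ⟨i, fun hiP => ?_⟩
  have h1 := (hlP i).1 hiP
  have hnI : ¬ I i := by
    intro h'
    simp [hlab0, h'] at h1
  exact hN i N0 (hNle i) hnI hi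

end Pool.H34.MC
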