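import Pool.Agent.H34.MC.Full

/-!
LIMIT: with `m = ⌈61 n / 10⌉` and `L = n ^ 2` the probability tends to `1`.
-/

namespace Pool.H34.MC

open Function Filter Topology

theorem prob_le_one (n m L : ℕ) : prob n m L ≤ 1 := by
  unfold prob
  apply div_le_one_of_le₀
  · exact_mod_cast Nat.card_le_card_of_injective (Subtype.val :
      {w : Fin n → Fin L → Fin m // IsAlgorithm w} → _) Subtype.val_injective
  · positivity

theorem ceil_bounds (n : ℕ) (hn : 1 ≤ n) :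
    61 * n ≤ 10 * ⌈(61 * n : ℝ) / 10⌉₊ ∧ 0 < ⌈(61 * n : ℝ) / 10⌉₊ ∧
      ⌈(61 * n : ℝ) / 10⌉₊ ≤ 7 * n := by
  have h1 : (61 * n : ℝ) / 10 ≤ (⌈(61 * n : ℝ) / 10⌉₊ : ℝ) := Nat.le_ceil _
  have hn' : (1 : ℝ) ≤ (n : ℝ) := by exact_mod_cast hn
  refine ⟨?_, ?_, ?_⟩
  · have : (61 * n : ℝ) ≤ 10 * (⌈(61 * n : ℝ) / 10⌉₊ : ℝ) := by linarith
    exact_mod_cast this
  · rw [Nat.ceil_pos]; positivity
  · rw [Nat.ceil_le]; push_cast; linarith

/-- the first error term -/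
theorem first_term_le (n m : ℕ) (hn : 1 ≤ n) (hm0 : 0 < m) (hm : m ≤ 7 * n) :
    (n : ℝ) * m * (1 - 1 / (m : ℝ)) ^ (n ^ 2) ≤ 7 * ((n : ℝ) ^ 2 * (Real.exp (-(1 / 7))) ^ n) := by
  have hm1 : (0 : ℝ) < (m : ℝ) := by exact_mod_cast hm0
  have hm2 : (1 : ℝ) ≤ (m : ℝ) := by exact_mod_cast hm0
  have hn1 : (0 : ℝ) < (n : ℝ) := by exact_mod_cast hn
  have hmn : (m : ℝ) ≤ 7 * n := by exact_mod_cast hm
  have h0 : 0 ≤ 1 - 1 / (m : ℝ) := by
    have : 1 / (m : ℝ) ≤ 1 := by rw [div_le_one hm1]; exact hm2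
    linarith
  have h1 : 1 - 1 / (m : ℝ) ≤ Real.exp (-(1 / (m : ℝ))) := by
    have := Real.add_one_le_exp (-(1 / (m : ℝ)))
    linarith
  have h2 : Real.exp (-(1 / (m : ℝ))) ≤ Real.exp (-(1 / (7 * (n : ℝ)))) := by
    apply Real.exp_le_exp.mpr
    apply neg_le_neg
    exact one_div_le_one_div_of_le hm1 hmn
  have h3 : (1 - 1 / (m : ℝ)) ^ (n ^ 2) ≤ (Real.exp (-(1 / 7))) ^ n := by
    calc (1 - 1 / (m : ℝ)) ^ (n ^ 2) ≤ (Real.exp (-(1 / (7 * (n : ℝ))))) ^ (n ^ 2) :=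
          pow_le_pow_left₀ h0 (h1.trans h2) _
      _ = (Real.exp (-(1 / 7))) ^ n := by
          rw [← Real.exp_nat_mul, ← Real.exp_nat_mul]
          congr 1
          push_cast
          field_simp
  calc (n : ℝ) * m * (1 - 1 / (m : ℝ)) ^ (n ^ 2)
      ≤ (n : ℝ) * (7 * n) * (Real.exp (-(1 / 7))) ^ n := by
        apply mul_le_mul _ h3 (pow_nonneg h0 _) (by positivity)
        exact mul_le_mul_of_nonneg_left hmn hn1.le
    _ = 7 * ((n : ℝ) ^ 2 * (Real.exp (-(1 / 7))) ^ n) := by ring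

/-- the second error term -/
theorem second_term_le (n m : ℕ) (hn : 1 ≤ n) (hm : m ≤ 7 * n) :
    (11 * (m : ℝ) * ((n ^ 2 : ℕ) : ℝ)) ^ n * (9999 / 10000) ^ (n ^ 2 - 1) ≤
      10000 / 9999 * (77 * ((n : ℝ) ^ 3 * (9999 / 10000) ^ n)) ^ n := by
  have hmn : (m : ℝ) ≤ 7 * n := by exact_mod_cast hm
  have h1 : (9999 / 10000 : ℝ) ^ (n ^ 2 - 1) = 10000 / 9999 * ((9999 / 10000 : ℝ) ^ n) ^ n := by
    have : ((9999 / 10000 : ℝ) ^ n) ^ n = (9999 / 10000 : ℝ) ^ (n ^ 2 - 1) * (9999 / 10000) := by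
      rw [← pow_mul, ← pow_succ]
      congr 1
      have : 1 ≤ n ^ 2 := Nat.one_le_pow _ _ hn
      have h2 : n * n = n ^ 2 := by ring
      omega
    rw [this]
    ring
  have h2 : (11 * (m : ℝ) * ((n ^ 2 : ℕ) : ℝ)) ^ n ≤ (77 * (n : ℝ) ^ 3) ^ n := by
    apply pow_le_pow_left₀ (by positivity)
    push_cast
    calc 11 * (m : ℝ) * (n : ℝ) ^ 2 ≤ 11 * (7 * n) * (n : ℝ) ^ 2 := by
          apply mul_le_mul_of_nonneg_right _ (by positivity)
          linarith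
      _ = 77 * (n : ℝ) ^ 3 := by ring
  rw [h1]
  calc (11 * (m : ℝ) * ((n ^ 2 : ℕ) : ℝ)) ^ n * (10000 / 9999 * ((9999 / 10000 : ℝ) ^ n) ^ n)
      ≤ (77 * (n : ℝ) ^ 3) ^ n * (10000 / 9999 * ((9999 / 10000 : ℝ) ^ n) ^ n) :=
        mul_le_mul_of_nonneg_right h2 (by positivity)
    _ = 10000 / 9999 * (77 * ((n : ℝ) ^ 3 * (9999 / 10000) ^ n)) ^ n := by
        rw [← mul_assoc 77, mul_pow (77 * (n : ℝ) ^ 3)]; ring

theorem tendsto_first :
    Tendsto (fun n : ℕ => 7 * ((n : ℝ) ^ 2 * (Real.exp (-(1 / 7))) ^ n)) atTop (𝓝 0) := by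
  have h := tendsto_pow_const_mul_const_pow_of_abs_lt_one 2
    (r := Real.exp (-(1 / 7))) (by
      rw [abs_of_pos (Real.exp_pos _), Real.exp_lt_one_iff]; norm_num)
  simpa using h.const_mul 7

theorem tendsto_second :
    Tendsto (fun n : ℕ => 10000 / 9999 * (77 * ((n : ℝ) ^ 3 * (9999 / 10000 : ℝ) ^ n)) ^ n)
      atTop (𝓝 0) := by
  have h := tendsto_pow_const_mul_const_pow_of_abs_lt_one 3
    (r := (9999 / 10000 : ℝ)) (by rw [abs_of_pos (by norm_num)]; norm_num)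
  have h' : Tendsto (fun n : ℕ => 77 * ((n : ℝ) ^ 3 * (9999 / 10000 : ℝ) ^ n)) atTop (𝓝 0) := by
    simpa using h.const_mul 77
  have hev : ∀ᶠ n : ℕ in atTop, 77 * ((n : ℝ) ^ 3 * (9999 / 10000 : ℝ) ^ n) < 1 / 2 :=
    h'.eventually (gt_mem_nhds (by norm_num))
  have hb : Tendsto (fun n : ℕ => (10000 / 9999 : ℝ) * (1 / 2 : ℝ) ^ n) atTop (𝓝 0) := by
    have := tendsto_pow_atTop_nhds_zero_of_lt_one (r := (1 / 2 : ℝ)) (by norm_num) (by norm_num)
    simpa using this.const_mul (10000 / 9999 : ℝ)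
  apply squeeze_zero' _ _ hb
  · exact Eventually.of_forall fun n => by positivity
  · filter_upwards [hev] with n hn
    apply mul_le_mul_of_nonneg_left _ (by norm_num)
    exact pow_le_pow_left₀ (by positivity) hn.le _

/-- LIMIT: with `m = ⌈61 n / 10⌉` and `L = n ^ 2`. -/
theorem tendsto_prob :
    Tendsto (fun n : ℕ => prob n ⌈(61 * n : ℝ) / 10⌉₊ (n ^ 2)) atTop (𝓝 1) := by
  have hlim := tendsto_first.add tendsto_second
  rw [add_zero] at hlim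
  have hlow := (tendsto_const_nhds (x := (1 : ℝ))).sub hlim
  rw [sub_zero] at hlow
  apply tendsto_of_tendsto_of_tendsto_of_le_of_le' hlow (tendsto_const_nhds (x := (1 : ℝ)))
  · filter_upwards [eventually_ge_atTop 1] with n hn
    obtain ⟨h1, h2, h3⟩ := ceil_bounds n hn
    have h4 := one_sub_prob_le n _ (n ^ 2) h1 h2 (pow_pos (by omega) 2)
    have h5 := first_term_le n _ hn h2 h3
    have h6 := second_term_le n _ hn h3
    linarith
  · exact Eventually.of_forall fun n => prob_le_one _ _ _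

/-- The threshold is at most `6.1`. -/
theorem cstar_le :
    cstar ≤ 61 / 10 := by
  have h1 : Tendsto (fun n : ℕ => (⌈(61 * n : ℝ) / 10⌉₊ : ℝ) / n) atTop (𝓝 (61 / 10)) := by
    have h2 := (tendsto_nat_ceil_mul_div_atTop (R := ℝ) (a := 61 / 10) (by norm_num)).comp
      tendsto_natCast_atTop_atTop
    refine h2.congr fun n => ?_
    simp only [Function.comp]
    rw [show (61 / 10 : ℝ) * n = 61 * n / 10 by ring]
  have h3 : Tendsto (fun n : ℕ => (⌈(61 * n : ℝ) / 10⌉₊ : ENNReal) / (n : ENNReal)) atTop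
      (𝓝 (61 / 10)) := by
    have h4 := ENNReal.tendsto_ofReal h1
    have e1 : ENNReal.ofReal (61 / 10) = 61 / 10 := by
      rw [ENNReal.ofReal_div_of_pos (by norm_num)]
      norm_num
    rw [e1] at h4
    refine h4.congr' ?_
    filter_upwards [eventually_gt_atTop 0] with n hn
    rw [ENNReal.ofReal_div_of_pos (by exact_mod_cast hn), ENNReal.ofReal_natCast,
      ENNReal.ofReal_natCast]
  refine sInf_le ⟨fun n => ⌈(61 * n : ℝ) / 10⌉₊, fun n => n ^ 2, fun n hn => ⟨?_, by positivity⟩,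
    tendsto_prob, ?_⟩
  · exact Nat.ceil_pos.2 (by positivity)
  · exact h3.liminf_eq.symm

end Pool.H34.MC
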